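import Mathlib

set_option autoImplicit false

namespace Pool.Agent.TH246.RC

/-- in a relative clique any two vertices are adjacent or joined by a special path -/
theorem special {n m : ℕ} {V : Type} (c : V → V → Option (Fin n × Bool ⊕ Fin m))
    (h0 : ∀ u, c u u = none)
    (h1 : ∀ u v, c v u = Option.map
      (Sum.elim (fun a : Fin n × Bool => (Sum.inl (a.1, !a.2) : Fin n × Bool ⊕ Fin m))
        (fun j : Fin m => (Sum.inr j : Fin n × Bool ⊕ Fin m))) (c u v))
    (R : Finset V)
    (hR : ∀ (W : Type) (d : W → W → Option (Fin n × Bool ⊕ Fin m)),
      (∀ w, d w w = none) →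
      (∀ w x, d x w = Option.map
        (Sum.elim (fun a : Fin n × Bool => (Sum.inl (a.1, !a.2) : Fin n × Bool ⊕ Fin m))
          (fun j : Fin m => (Sum.inr j : Fin n × Bool ⊕ Fin m))) (d w x)) →
      ∀ f : V → W, (∀ u v t, c u v = some t → d (f u) (f v) = some t) →
        Set.InjOn f (R : Set V)) :
    ∀ r ∈ R, ∀ s ∈ R, r ≠ s →
      c r s ≠ none ∨ ∃ y, c y r ≠ none ∧ c y s ≠ none ∧ c y r ≠ c y s := by
  classical
  intro r hr s hs hrs
  by_contra hcon
  push Not at hcon
  obtain ⟨hcrs, hy⟩ := hcon
  generalize hfl : (Sum.elim (fun a : Fin n × Bool => (Sum.inl (a.1, !a.2) : Fin n × Bool ⊕ Fin m))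
        (fun j : Fin m => (Sum.inr j : Fin n × Bool ⊕ Fin m))) = fl at h1 hR
  have hinv : ∀ u v, c v u = none → c u v = none := by
    intro u v h
    rw [h1 v u, h]
    rfl
  have hcsr : c s r = none := hinv _ _ hcrs
  have hor : ∀ x y : Option (Fin n × Bool ⊕ Fin m),
      Option.map fl (x.or y) = (Option.map fl x).or (Option.map fl y) := by
    intro x y
    cases x <;> rfl
  let d : V → V → Option (Fin n × Bool ⊕ Fin m) := fun a b =>
    if a = s ∨ b = s then none
    else if a = r then (if b = r then none else (c r b).or (c s b))
    else if b = r then (c a r).or (c a s)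
    else c a b
  let f : V → V := fun v => if v = s then r else v
  have hd0 : ∀ w, d w w = none := by
    intro w
    by_cases hws : w = s
    · simp [d, hws]
    · by_cases hwr : w = r
      · simp [d, hwr]
      · simp [d, hws, hwr, h0]
  have hd1 : ∀ w x, d x w = Option.map fl (d w x) := by
    intro w x
    by_cases hws : w = s
    · simp [d, hws]
    · by_cases hxs : x = s
      · simp [d, hxs]
      · by_cases hwr : w = r
        · by_cases hxr : x = r
          · simp [d, hwr, hxr]
          · subst hwr
            have e1 : d x w = (c x w).or (c x s) := by simp [d, hws, hxs, hxr]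
            have e2 : d w x = (c w x).or (c s x) := by simp [d, hws, hxs, hxr]
            rw [e1, e2, hor, ← h1 w x, ← h1 s x]
        · by_cases hxr : x = r
          · subst hxr
            have e1 : d x w = (c x w).or (c s w) := by simp [d, hws, hxs, hwr]
            have e2 : d w x = (c w x).or (c w s) := by simp [d, hws, hxs, hwr]
            rw [e1, e2, hor, ← h1 w x, ← h1 w s]
          · have e1 : d x w = c x w := by simp [d, hws, hxs, hwr, hxr]
            have e2 : d w x = c w x := by simp [d, hws, hxs, hwr, hxr]
            rw [e1, e2, ← h1 w x]
  have hhom : ∀ u v t, c u v = some t → d (f u) (f v) = some t := by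
    intro u v t huv
    by_cases hus : u = s
    · subst hus
      have hvs : v ≠ u := by
        rintro rfl
        rw [h0] at huv
        exact absurd huv (by simp)
      have hvr : v ≠ r := by
        rintro rfl
        rw [hcsr] at huv
        exact absurd huv (by simp)
      have e : d (f u) (f v) = (c r v).or (c u v) := by simp [d, f, hvs, hvr, hrs]
      rw [e]
      by_cases hcv : c r v = none
      · rw [hcv, huv]
        rfl
      · have g1 : c v r ≠ none := fun h => hcv (hinv _ _ h)
        have g2 : c v u ≠ none := fun h => by
          rw [hinv _ _ h] at huv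
          exact absurd huv (by simp)
        have g3 := hy v g1 g2
        have g4 : c r v = c u v := by rw [h1 v r, h1 v u, g3]
        rw [g4, huv]
        rfl
    · by_cases hvs : v = s
      · subst hvs
        have hur : u ≠ r := by
          rintro rfl
          rw [hcrs] at huv
          exact absurd huv (by simp)
        have e : d (f u) (f v) = (c u r).or (c u v) := by simp [d, f, hus, hur, hrs]
        rw [e]
        by_cases hcu : c u r = none
        · rw [hcu, huv]
          rfl
        · have g2 : c u v ≠ none := by rw [huv]; simp
          rw [hy u hcu g2, huv]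
          rfl
      · have fu : f u = u := by simp [f, hus]
        have fv : f v = v := by simp [f, hvs]
        rw [fu, fv]
        by_cases hur : u = r
        · by_cases hvr : v = r
          · subst hur
            subst hvr
            rw [h0] at huv
            exact absurd huv (by simp)
          · subst hur
            have e : d u v = (c u v).or (c s v) := by simp [d, hus, hvs, hvr]
            rw [e, huv]
            rfl
        · by_cases hvr : v = r
          · subst hvr
            have e : d u v = (c u v).or (c u s) := by simp [d, hus, hvs, hur]
            rw [e, huv]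
            rfl
          · have e : d u v = c u v := by simp [d, hus, hvs, hur, hvr]
            rw [e, huv]
  have hinj := hR V d hd0 hd1 f hhom
  have : f r = f s := by simp [f, hrs]
  exact hrs (hinj hr hs this)

end Pool.Agent.TH246.RC
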