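import Pool.Agent.TH246.RC.Defs
import Pool.Agent.Helper448.VanKampen

/-!
# Relative cliques in planar coloured mixed graphs: plane drawings

A graph drawn in the plane without crossings satisfies `NoWeak`.
-/

set_option autoImplicit false

namespace Pool.Agent.TH246.RC

/-- the plane as the complex numbers -/
noncomputable def planPhi (x : ℝ × ℝ) : ℂ := ⟨x.1, x.2⟩

theorem planPhi_cont : Continuous planPhi := by
  have h : planPhi = fun x : ℝ × ℝ => (x.1 : ℂ) + (x.2 : ℂ) * Complex.I := by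
    funext x
    apply Complex.ext <;> simp [planPhi]
  rw [h]
  fun_prop

theorem planPhi_inj : Function.Injective planPhi := by
  intro x y h
  have h1 := congrArg Complex.re h
  have h2 := congrArg Complex.im h
  exact Prod.ext h1 h2

section

variable {V : Type} {G : SimpleGraph V} {p : V → ℝ × ℝ}

/-- the part of the drawing over the vertex set `Y` -/
def planSS (G : SimpleGraph V) (p : V → ℝ × ℝ) (γ : ∀ u v : V, Path (p u) (p v)) (Y : Set V) :
    Set (ℝ × ℝ) :=
  {z | (∃ v ∈ Y, p v = z) ∨ ∃ u w, u ∈ Y ∧ w ∈ Y ∧ G.Adj u w ∧ ∃ t, γ u w t = z}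

theorem plan_joined (γ : ∀ u v : V, Path (p u) (p v)) (Y : Set V) {a b : V} (W : G.Walk a b)
    (hW : ∀ v ∈ W.support, v ∈ Y) : JoinedIn (planSS G p γ Y) (p a) (p b) := by
  induction W with
  | nil => exact JoinedIn.refl (Or.inl ⟨_, hW _ (by simp), rfl⟩)
  | @cons u v w h W ih =>
    have hu : u ∈ Y := hW u (by simp)
    have hW' : ∀ x ∈ W.support, x ∈ Y := fun x hx => hW x (by simp [hx])
    have hv : v ∈ Y := hW' v (by simp)
    have h1 : JoinedIn (planSS G p γ Y) (p u) (p v) :=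
      ⟨γ u v, fun t => Or.inr ⟨u, v, hu, hv, h, t, rfl⟩⟩
    exact h1.trans (ih hW')

theorem plan_end {x y : ℝ × ℝ} (γ : Path x y) (t : unitInterval)
    (h : ¬ (0 < (t : ℝ) ∧ (t : ℝ) < 1)) : γ t = x ∨ γ t = y := by
  have h0 := t.2.1
  have h1 := t.2.2
  by_cases h2 : 0 < (t : ℝ)
  · right
    have h3 : (t : ℝ) = 1 := by
      by_contra hc
      exact h ⟨h2, lt_of_le_of_ne h1 hc⟩
    have : t = 1 := Subtype.ext h3
    rw [this, γ.target]
  · left
    have h3 : (t : ℝ) = 0 := le_antisymm (not_lt.mp h2) h0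
    have : t = 0 := Subtype.ext h3
    rw [this, γ.source]

theorem plan_disj (hp : Function.Injective p) (γ : ∀ u v : V, Path (p u) (p v))
    (h2 : ∀ u v w, G.Adj u v → ∀ t : unitInterval, 0 < (t : ℝ) → (t : ℝ) < 1 → γ u v t ≠ p w)
    (h3 : ∀ u v x y, G.Adj u v → G.Adj x y → ¬(x = u ∧ y = v) → ¬(x = v ∧ y = u) →
      ∀ s t : unitInterval, 0 < (s : ℝ) → (s : ℝ) < 1 → γ u v s ≠ γ x y t)
    {Y Z : Set V} (hYZ : Disjoint Y Z) : Disjoint (planSS G p γ Y) (planSS G p γ Z) := by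
  -- a vertex point is not on an edge over a disjoint vertex set
  have key : ∀ {Y Z : Set V}, Disjoint Y Z → ∀ v ∈ Y, ∀ u w, u ∈ Z → w ∈ Z → G.Adj u w →
      ∀ t, γ u w t ≠ p v := by
    intro Y Z hd v hv u w hu hw huw t ht
    rw [Set.disjoint_left] at hd
    by_cases h : 0 < (t : ℝ) ∧ (t : ℝ) < 1
    · exact h2 u w v huw t h.1 h.2 ht
    · rcases plan_end (γ u w) t h with h4 | h4
      · have := hp (h4.symm.trans ht)
        exact hd hv (this ▸ hu)
      · have := hp (h4.symm.trans ht)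
        exact hd hv (this ▸ hw)
  rw [Set.disjoint_left]
  rintro z (⟨v, hv, hz⟩ | ⟨u, w, hu, hw, huw, t, ht⟩)
    (⟨v', hv', hz'⟩ | ⟨u', w', hu', hw', huw', t', ht'⟩)
  · have := hp (hz.trans hz'.symm)
    exact Set.disjoint_left.mp hYZ hv (this ▸ hv')
  · exact key hYZ v hv u' w' hu' hw' huw' t' (ht'.trans hz.symm)
  · exact key hYZ.symm v' hv' u w hu hw huw t (ht.trans hz'.symm)
  · by_cases h : 0 < (t : ℝ) ∧ (t : ℝ) < 1
    · have hd := Set.disjoint_left.mp hYZ
      refine h3 u w u' w' huw huw' ?_ ?_ t t' h.1 h.2 (ht.trans ht'.symm)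
      · rintro ⟨rfl, -⟩
        exact hd hu hu'
      · rintro ⟨rfl, -⟩
        exact hd hw hu'
    · rcases plan_end (γ u w) t h with h4 | h4
      · exact key hYZ u hu u' w' hu' hw' huw' t' (ht'.trans (ht.symm.trans h4))
      · exact key hYZ w hw u' w' hu' hw' huw' t' (ht'.trans (ht.symm.trans h4))

end

/-- a graph drawn in the plane without crossings satisfies `NoWeak` -/
theorem noWeak {V : Type} {G : SimpleGraph V} (p : V → ℝ × ℝ) (hp : Function.Injective p)
    (γ : ∀ u v : V, Path (p u) (p v))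
    (h2 : ∀ u v w, G.Adj u v → ∀ t : unitInterval, 0 < (t : ℝ) → (t : ℝ) < 1 → γ u v t ≠ p w)
    (h3 : ∀ u v x y, G.Adj u v → G.Adj x y → ¬(x = u ∧ y = v) → ¬(x = v ∧ y = u) →
      ∀ s t : unitInterval, 0 < (s : ℝ) → (s : ℝ) < 1 → γ u v s ≠ γ x y t) : NoWeak G := by
  intro p' X hW hX
  refine Pool.Agent.Helper448.VanKampen.k5_joined (fun a => planPhi (p (p' a)))
    (fun a b => planPhi '' planSS G p γ (X a b)) ?_ ?_
  · intro a b hab
    obtain ⟨W, hW'⟩ := hW a b hab
    obtain ⟨δ, hδ⟩ := plan_joined (p := p) γ (X a b) W hW'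
    exact ⟨δ.map planPhi_cont, fun t => ⟨δ t, hδ t, rfl⟩⟩
  · intro a b c d hab hcd n1 n2 n3 n4
    exact (Set.disjoint_image_iff planPhi_inj).mpr
      (plan_disj hp γ h2 h3 (hX a b c d hab hcd n1 n2 n3 n4))

end Pool.Agent.TH246.RC
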