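import Mathlib

set_option autoImplicit false

namespace Pool.Agent.TH246.RC

theorem arith_third (p i j uA uB mu mj : ℤ) (hp : 20000 ≤ p)
    (hi : 200 * i + p ≤ 200 * p) (hj : 200 * j + p ≤ 200 * p)
    (hi8 : 8 ≤ i) (hj1 : 1 ≤ j) (hij : j ≤ i)
    (hA : 0 ≤ uA) (hB : 0 ≤ uB) (hm : 0 ≤ mu) (hu : uA + uB + mu = p)
    (h1 : uA ≤ i + 1) (hmj : mj ≤ 6) (hmj3 : mj ≤ 3 * j) :
    3 * i * j + 1 ≤ p + (3 * i * (p - uA) - 6 * mu - 6 * i - 1) +
      (3 * j * (p - uB) - mj * mu - 6 * j - 1) := by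
  have hA' : uA = p - uB - mu := by linarith
  have hpi : 100 ≤ p - i := by linarith
  have hs : p - i - 1 ≤ uB + mu := by linarith
  have e1 : 0 ≤ (6 - mj) * mu := mul_nonneg (by linarith) hm
  have e2 : 0 ≤ (3 * j - mj) * mu := mul_nonneg (by linarith) hm
  subst hA'
  rcases lt_or_ge j 4 with h4 | h4
  · have k1 : 0 ≤ i * (uB + mu - (p - i - 1)) := mul_nonneg (by linarith) (by linarith)
    have k2 : 0 ≤ i * (p - i - 100) := mul_nonneg (by linarith) (by linarith)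
    have k3 : 0 ≤ (i - 8) * (p - i - 100) := mul_nonneg (by linarith) (by linarith)
    interval_cases j
    · nlinarith
    · nlinarith
    · nlinarith
  · have k1 : 0 ≤ (i - j) * (uB + mu - (p - i - 1)) := mul_nonneg (by linarith) (by linarith)
    have k2 : 0 ≤ (j - 4) * mu := mul_nonneg (by linarith) hm
    have k3 : 0 ≤ i * (p - i - 100) := mul_nonneg (by linarith) (by linarith)
    nlinarith

/-- the core inequality -/
theorem arith_core (p i j uA uB mu mi mj : ℤ) (hp : 20000 ≤ p)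
    (hi : 200 * i + p ≤ 200 * p) (hj : 200 * j + p ≤ 200 * p)
    (hi1 : 1 ≤ i) (hj1 : 1 ≤ j)
    (hA : 0 ≤ uA) (hB : 0 ≤ uB) (hm : 0 ≤ mu) (hu : uA + uB + mu = p)
    (hmi : mi ≤ 6) (hmi3 : mi ≤ 3 * i) (hmj : mj ≤ 6) (hmj3 : mj ≤ 3 * j)
    (FA FB : ℤ) (fa1 : -i ≤ FA) (fa2 : 3 * i * (p - uA) - mi * mu - 6 * i - 1 ≤ FA)
    (fb1 : -j ≤ FB) (fb2 : 3 * j * (p - uB) - mj * mu - 6 * j - 1 ≤ FB) :
    3 * i * j + 1 ≤ p + FA + FB := by
  have hpi : 100 ≤ p - i := by linarith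
  have hpj : 100 ≤ p - j := by linarith
  have e1 : 0 ≤ (6 - mj) * mu := mul_nonneg (by linarith) hm
  have e2 : 0 ≤ (3 * j - mj) * mu := mul_nonneg (by linarith) hm
  have e3 : 0 ≤ (6 - mi) * mu := mul_nonneg (by linarith) hm
  have e4 : 0 ≤ (3 * i - mi) * mu := mul_nonneg (by linarith) hm
  rcases le_or_gt (i + 2) uA with c1 | c1
  · have k : 0 ≤ j * (uA - (i + 2)) := mul_nonneg (by linarith) (by linarith)
    have hB' : uB = p - uA - mu := by linarith
    subst hB'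
    nlinarith
  rcases le_or_gt (j + 2) uB with c2 | c2
  · have k : 0 ≤ i * (uB - (j + 2)) := mul_nonneg (by linarith) (by linarith)
    have hA' : uA = p - uB - mu := by linarith
    subst hA'
    nlinarith
  rcases le_total j i with hij | hij
  · rcases le_or_gt i 7 with h7 | h7
    · have k : 0 ≤ (7 - i) * j := mul_nonneg (by linarith) (by linarith)
      nlinarith
    · have := arith_third p i j uA uB mu mj hp hi hj (by linarith) hj1 hij hA hB hm hu
        (by linarith) hmj hmj3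
      nlinarith
  · rcases le_or_gt j 7 with h7 | h7
    · have k : 0 ≤ (7 - j) * i := mul_nonneg (by linarith) (by linarith)
      nlinarith
    · have := arith_third p j i uB uA mu mi hp hj hi (by linarith) hi1 hij hB hA hm
        (by linarith) (by linarith) hmi hmi3
      nlinarith

/-- the final inequality -/
theorem arith (p i1 i2 j1 j2 uA uB mu N Q A B : ℕ) (hp : 20000 ≤ p)
    (hi : 200 * (i1 + i2) + p ≤ 200 * p) (hj : 200 * (j1 + j2) + p ≤ 200 * p)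
    (hi1 : 1 ≤ i1) (hj1 : 1 ≤ j1) (hu : uA + uB + mu = p) (hN : N ≤ 2 + Q + A + B)
    (hQ : Q ≤ 3 * (p - (i1 + i2)) * (p - (j1 + j2)))
    (hA1 : A ≤ i1 * (3 * p + 1) + 199 * i2)
    (hA2 : A ≤ 3 * i1 * uA + min 6 (3 * i1) * mu + 1 + 6 * i1 + 199 * i2)
    (hB1 : B ≤ j1 * (3 * p + 1) + 199 * j2)
    (hB2 : B ≤ 3 * j1 * uB + min 6 (3 * j1) * mu + 1 + 6 * j1 + 199 * j2) :
    N ≤ 3 * p ^ 2 + p + 1 := by
  have hip : i1 + i2 ≤ p := by omega
  have hjp : j1 + j2 ≤ p := by omega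
  zify [hip, hjp] at *
  set mi : ℤ := min 6 (3 * (i1 : ℤ)) with hmi
  set mj : ℤ := min 6 (3 * (j1 : ℤ)) with hmj
  have a1 : mi ≤ 6 := min_le_left _ _
  have a2 : mi ≤ 3 * (i1 : ℤ) := min_le_right _ _
  have a3 : mj ≤ 6 := min_le_left _ _
  have a4 : mj ≤ 3 * (j1 : ℤ) := min_le_right _ _
  have n1 : (0 : ℤ) ≤ i2 := Int.natCast_nonneg _
  have n2 : (0 : ℤ) ≤ j2 := Int.natCast_nonneg _
  have n3 : (0 : ℤ) ≤ uA := Int.natCast_nonneg _
  have n4 : (0 : ℤ) ≤ uB := Int.natCast_nonneg _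
  have n5 : (0 : ℤ) ≤ mu := Int.natCast_nonneg _
  have core := arith_core p i1 j1 uA uB mu mi mj hp (by linarith) (by linarith) hi1 hj1 n3 n4 n5 hu
    a1 a2 a3 a4 (3 * p * i1 + 199 * i2 - A) (3 * p * j1 + 199 * j2 - B)
    (by linarith) (by linarith) (by linarith) (by linarith)
  have k1 : (0 : ℤ) ≤ (3 * p - 199 - 3 * i1) * j2 := mul_nonneg (by linarith) n2
  have k2 : (0 : ℤ) ≤ (3 * p - 199 - 3 * (j1 + j2)) * i2 := mul_nonneg (by linarith) n1
  nlinarith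

/-- the same if there is no large class on one side -/
theorem arith0 (p i j N Q A B : ℕ) (hp : 20000 ≤ p) (hi : 200 * i + p ≤ 200 * p)
    (hN : N ≤ 2 + Q + A + B) (hj : j ≤ p) (hQ : Q ≤ 3 * (p - i) * (p - j))
    (hA : A ≤ i * (3 * p + 1)) (hB : B ≤ 199 * j) :
    N ≤ 3 * p ^ 2 + p + 1 := by
  have hip : i ≤ p := by omega
  zify [hip, hj] at *
  have n1 : (0 : ℤ) ≤ j := Int.natCast_nonneg _
  have k : (0 : ℤ) ≤ j * (3 * (p - i) - 199) := mul_nonneg n1 (by linarith)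
  nlinarith

/-- both complements are large -/
theorem arith1 (p i j K Q : ℕ) (hp : 20000 ≤ p) (hi : i ≤ p) (hj : j ≤ p)
    (hK : p ^ 2 ≤ 60 * K) (hKQ : K ≤ Q + 6 * i + 6 * j) (hQ : Q ≤ 3 * (p - i) * (p - j)) :
    200 * i + p ≤ 200 * p ∧ 200 * j + p ≤ 200 * p := by
  have hi' : (i : ℤ) ≤ p := by exact_mod_cast hi
  have hj' : (j : ℤ) ≤ p := by exact_mod_cast hj
  have hp' : (20000 : ℤ) ≤ p := by exact_mod_cast hp
  zify [hi, hj] at hK hKQ hQ
  zify
  have n1 : (0 : ℤ) ≤ j := Int.natCast_nonneg _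
  have n2 : (0 : ℤ) ≤ i := Int.natCast_nonneg _
  have k3 : (0 : ℤ) ≤ (p - 20000) * p := mul_nonneg (by linarith) (by linarith)
  constructor
  · by_contra hc
    push Not at hc
    have k1 : (0 : ℤ) ≤ (p - i) * j := mul_nonneg (by linarith) n1
    have k2 : (0 : ℤ) ≤ (p - 200 * (p - i)) * p := mul_nonneg (by linarith) (by linarith)
    nlinarith
  · by_contra hc
    push Not at hc
    have k1 : (0 : ℤ) ≤ (p - j) * i := mul_nonneg (by linarith) n2
    have k2 : (0 : ℤ) ≤ (p - 200 * (p - j)) * p := mul_nonneg (by linarith) (by linarith)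
    nlinarith

end Pool.Agent.TH246.RC
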