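import Pool.Agent.TH246.RC.Theta

set_option autoImplicit false

namespace Pool.Agent.TH246.RC

open Finset

variable {V : Type} {G : SimpleGraph V}

/-- in a relation without cycles of length `3`, `4`, `5` the vertices `p` and `q₂` of the path
`p, a, q, q₂` are not at distance at most two -/
theorem four_aux_path {E : V → V → Prop} (symm : ∀ u v, E u v → E v u) (irr : ∀ u, ¬ E u u)
    (c3 : ∀ z1 z2 z3, E z1 z2 → E z2 z3 → E z3 z1 → False)
    (c4 : ∀ z1 z2 z3 z4, z1 ≠ z3 → z2 ≠ z4 → E z1 z2 → E z2 z3 → E z3 z4 → E z4 z1 → False)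
    (c5 : ∀ z1 z2 z3 z4 z5, z1 ≠ z3 → z1 ≠ z4 → z2 ≠ z4 → z2 ≠ z5 → z3 ≠ z5 →
      E z1 z2 → E z2 z3 → E z3 z4 → E z4 z5 → E z5 z1 → False)
    {a p q r : V} (hap : E a p) (haq : E a q) (hpq : p ≠ q) (hqr : E q r) (hra : r ≠ a)
    (h : E p r ∨ ∃ t, E p t ∧ E t r) : False := by
  rcases h with h | ⟨t, hpt, htr⟩
  · exact c4 a p r q (Ne.symm hra) hpq hap h (symm _ _ hqr) (symm _ _ haq)
  · by_cases h1 : t = a
    · subst h1
      exact c3 t q r haq hqr (symm _ _ htr)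
    · by_cases h2 : t = q
      · subst h2
        exact c3 a p t hap hpt (symm _ _ haq)
      · by_cases h3 : p = r
        · subst h3
          exact c3 a p q hap (symm _ _ hqr) (symm _ _ haq)
        · exact c5 a p t r q (Ne.symm h1) (Ne.symm hra) h3 hpq h2 hap hpt htr (symm _ _ hqr)
            (symm _ _ haq)

/-- four vertices `a, u, v, k` with `u`, `v` on one side and `k` on the other side of `a` -/
theorem four_aux_core {E : V → V → Prop} (symm : ∀ u v, E u v → E v u) (irr : ∀ u, ¬ E u u)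
    (deg : ∀ c a1 a2 a3, a1 ≠ a2 → a1 ≠ a3 → a2 ≠ a3 → E c a1 → E c a2 → E c a3 → False)
    (c3 : ∀ z1 z2 z3, E z1 z2 → E z2 z3 → E z3 z1 → False)
    (c4 : ∀ z1 z2 z3 z4, z1 ≠ z3 → z2 ≠ z4 → E z1 z2 → E z2 z3 → E z3 z4 → E z4 z1 → False)
    (c5 : ∀ z1 z2 z3 z4 z5, z1 ≠ z3 → z1 ≠ z4 → z2 ≠ z4 → z2 ≠ z5 → z3 ≠ z5 →
      E z1 z2 → E z2 z3 → E z3 z4 → E z4 z5 → E z5 z1 → False)
    {a u v k q : V} (hau : E a u) (huv : E u v) (hva : v ≠ a) (haq : E a q)
    (hkq : k = q ∨ E q k) (hka : k ≠ a) (huk : u ≠ k) (hvk : v ≠ k)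
    (h1 : E k v ∨ ∃ t, E k t ∧ E t v) (h2 : E u k ∨ ∃ t, E u t ∧ E t k) : False := by
  by_cases hqu : q = u
  · subst hqu
    rcases hkq with h | h
    · exact huk h.symm
    · exact deg q a v k (Ne.symm hva) (Ne.symm hka) hvk (symm _ _ haq) huv h
  · rcases hkq with h | h
    · subst h
      exact four_aux_path symm irr c3 c4 c5 haq hau hqu huv hva h1
    · exact four_aux_path symm irr c3 c4 c5 hau haq (Ne.symm hqu) h hka h2

/-- two of the three vertices `b, c, d` on the same side of `a` -/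
theorem four_aux_side {E : V → V → Prop} (symm : ∀ u v, E u v → E v u) (irr : ∀ u, ¬ E u u)
    (deg : ∀ c a1 a2 a3, a1 ≠ a2 → a1 ≠ a3 → a2 ≠ a3 → E c a1 → E c a2 → E c a3 → False)
    (c3 : ∀ z1 z2 z3, E z1 z2 → E z2 z3 → E z3 z1 → False)
    (c4 : ∀ z1 z2 z3 z4, z1 ≠ z3 → z2 ≠ z4 → E z1 z2 → E z2 z3 → E z3 z4 → E z4 z1 → False)
    (c5 : ∀ z1 z2 z3 z4 z5, z1 ≠ z3 → z1 ≠ z4 → z2 ≠ z4 → z2 ≠ z5 → z3 ≠ z5 →
      E z1 z2 → E z2 z3 → E z3 z4 → E z4 z5 → E z5 z1 → False)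
    {a b c d p q : V} (hab : a ≠ b) (hac : a ≠ c) (had : a ≠ d) (hbc : b ≠ c) (hbd : b ≠ d)
    (hcd : c ≠ d) (hap : E a p) (haq : E a q)
    (hb : b = p ∨ E p b) (hc : c = p ∨ E p c) (hd : d = q ∨ E q d)
    (kbd : E b d ∨ ∃ t, E b t ∧ E t d) (kcd : E c d ∨ ∃ t, E c t ∧ E t d) : False := by
  have sy : ∀ {u v : V}, (E u v ∨ ∃ t, E u t ∧ E t v) → (E v u ∨ ∃ t, E v t ∧ E t u) := by
    intro u v h
    rcases h with h | ⟨t, h1, h2⟩
    · exact Or.inl (symm _ _ h)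
    · exact Or.inr ⟨t, symm _ _ h2, symm _ _ h1⟩
  by_cases hbp : b = p
  · have hcb : E b c := by
      rcases hc with h | h
      · exact absurd (hbp.trans h.symm) hbc
      · rw [hbp]; exact h
    exact four_aux_core symm irr deg c3 c4 c5 (a := a) (u := b) (v := c) (k := d) (q := q)
      (by rw [hbp]; exact hap) hcb (Ne.symm hac) haq hd (Ne.symm had) hbd hcd (sy kcd) kbd
  · have hpb : E p b := by
      rcases hb with h | h
      · exact absurd h hbp
      · exact h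
    by_cases hcp : c = p
    · have hcb : E c b := by rw [hcp]; exact hpb
      exact four_aux_core symm irr deg c3 c4 c5 (a := a) (u := c) (v := b) (k := d) (q := q)
        (by rw [hcp]; exact hap) hcb (Ne.symm hab) haq hd (Ne.symm had) hcd hbd (sy kbd) kcd
    · have hpc : E p c := by
        rcases hc with h | h
        · exact absurd h hcp
        · exact h
      exact deg p a b c hab hac hbc (symm _ _ hap) hpb hpc

/-- in a relation of maximum degree two without cycles of length `3`, `4`, `5` there are no four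
vertices pairwise at distance at most two -/
theorem four_aux_comb {E : V → V → Prop} (symm : ∀ u v, E u v → E v u) (irr : ∀ u, ¬ E u u)
    (deg : ∀ c a1 a2 a3, a1 ≠ a2 → a1 ≠ a3 → a2 ≠ a3 → E c a1 → E c a2 → E c a3 → False)
    (c3 : ∀ z1 z2 z3, E z1 z2 → E z2 z3 → E z3 z1 → False)
    (c4 : ∀ z1 z2 z3 z4, z1 ≠ z3 → z2 ≠ z4 → E z1 z2 → E z2 z3 → E z3 z4 → E z4 z1 → False)
    (c5 : ∀ z1 z2 z3 z4 z5, z1 ≠ z3 → z1 ≠ z4 → z2 ≠ z4 → z2 ≠ z5 → z3 ≠ z5 →
      E z1 z2 → E z2 z3 → E z3 z4 → E z4 z5 → E z5 z1 → False)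
    (a : Fin 4 → V) (ha : Function.Injective a)
    (h : ∀ i j, i ≠ j → (E (a i) (a j) ∨ ∃ t, E (a i) t ∧ E t (a j))) : False := by
  have side : ∀ i, i ≠ 0 → ∃ s, E (a 0) s ∧ (a i = s ∨ E s (a i)) := by
    intro i hi
    rcases h 0 i (Ne.symm hi) with h1 | ⟨t, h1, h2⟩
    · exact ⟨a i, h1, Or.inl rfl⟩
    · exact ⟨t, h1, Or.inr h2⟩
  have ne : ∀ i j : Fin 4, i ≠ j → a i ≠ a j := fun i j hij e => hij (ha e)
  obtain ⟨s1, e1, f1⟩ := side 1 (by decide)
  obtain ⟨s2, e2, f2⟩ := side 2 (by decide)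
  obtain ⟨s3, e3, f3⟩ := side 3 (by decide)
  have n01 := ne 0 1 (by decide)
  have n02 := ne 0 2 (by decide)
  have n03 := ne 0 3 (by decide)
  have n12 := ne 1 2 (by decide)
  have n13 := ne 1 3 (by decide)
  have n23 := ne 2 3 (by decide)
  by_cases h12 : s1 = s2
  · subst h12
    exact four_aux_side symm irr deg c3 c4 c5 n01 n02 n03 n12 n13 n23 e1 e3 f1 f2 f3
      (h 1 3 (by decide)) (h 2 3 (by decide))
  · by_cases h13 : s1 = s3
    · subst h13
      exact four_aux_side symm irr deg c3 c4 c5 n01 n03 n02 n13 n12 (Ne.symm n23) e1 e2 f1 f3 f2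
        (h 1 2 (by decide)) (h 3 2 (by decide))
    · by_cases h23 : s2 = s3
      · subst h23
        exact four_aux_side symm irr deg c3 c4 c5 n02 n03 n01 n23 (Ne.symm n12) (Ne.symm n13)
          e2 e1 f2 f3 f1 (h 2 1 (by decide)) (h 3 1 (by decide))
      · exact deg (a 0) s1 s2 s3 h12 h13 h23 e1 e2 e3

/-- the application of `theta` -/
theorem four_aux_theta (hG : NoWeak G) (W : Set V) (x : V) (C : Finset V)
    (hW : ∀ u ∈ W, ∀ v ∈ W, ∃ p : G.Walk u v, ∀ z ∈ p.support, z ∈ W) (hx : x ∉ W)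
    (hC : ∀ c ∈ C, c ∉ W ∧ G.Adj x c ∧ ∃ u ∈ W, G.Adj u c) (h6 : 6 ≤ C.card)
    (D : Finset V) (hD : D.card ≤ 2) (hDC : ∀ v ∈ D, v ∈ C) (z1 z2 z3 : V)
    (m1 : z1 ∈ C) (m2 : z2 ∈ C) (m3 : z3 ∈ C) (n12 : z1 ≠ z2) (n13 : z1 ≠ z3) (n23 : z2 ≠ z3)
    (d1 : z1 ∉ D) (d2 : z2 ∉ D) (d3 : z3 ∉ D)
    (w12 : ∃ p : G.Walk z1 z2, ∀ v ∈ p.support, v = z1 ∨ v = z2 ∨
      v ∈ {v | (v ∉ C ∧ v ∉ W ∧ v ≠ x) ∨ v ∈ D})
    (w23 : ∃ p : G.Walk z2 z3, ∀ v ∈ p.support, v = z2 ∨ v = z3 ∨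
      v ∈ {v | (v ∉ C ∧ v ∉ W ∧ v ≠ x) ∨ v ∈ D})
    (w13 : ∃ p : G.Walk z1 z3, ∀ v ∈ p.support, v = z1 ∨ v = z3 ∨
      v ∈ {v | (v ∉ C ∧ v ∉ W ∧ v ≠ x) ∨ v ∈ D}) : False := by
  classical
  have hxC : x ∉ C := fun h => (hC x h).2.1.ne rfl
  -- a further vertex of `C`
  obtain ⟨c0, hc0C, hc0⟩ : ∃ c0 ∈ C, c0 ∉ D ∪ {z1, z2, z3} := by
    by_contra hcon
    push Not at hcon
    have hsub : C ⊆ D ∪ {z1, z2, z3} := fun c hc => hcon c hc
    have h1 := Finset.card_le_card hsub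
    have h2 := Finset.card_union_le D {z1, z2, z3}
    have h3 : ({z1, z2, z3} : Finset V).card ≤ 3 := Finset.card_le_three
    omega
  simp only [Finset.mem_union, Finset.mem_insert, Finset.mem_singleton, not_or] at hc0
  obtain ⟨hc0D, hc01, hc02, hc03⟩ := hc0
  obtain ⟨w, hwW, hwc0⟩ := (hC c0 hc0C).2.2
  have toW : ∀ c ∈ C, ∃ p : G.Walk c w, ∀ v ∈ p.support, v = c ∨ v ∈ W := by
    intro c hc
    obtain ⟨u, huW, huc⟩ := (hC c hc).2.2
    obtain ⟨p, hp⟩ := hW u huW w hwW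
    refine ⟨SimpleGraph.Walk.cons huc.symm p, ?_⟩
    intro v hv
    rw [SimpleGraph.Walk.support_cons, List.mem_cons] at hv
    rcases hv with h | h
    · exact Or.inl h
    · exact Or.inr (hp v h)
  have toX : ∀ c ∈ C, ∃ p : G.Walk c x, ∀ v ∈ p.support, v = c ∨ v ∈ ({x} : Set V) := by
    intro c hc
    refine ⟨SimpleGraph.Walk.cons (hC c hc).2.1.symm SimpleGraph.Walk.nil, ?_⟩
    intro v hv
    rw [SimpleGraph.Walk.support_cons, List.mem_cons, SimpleGraph.Walk.support_nil,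
      List.mem_singleton] at hv
    rcases hv with h | h
    · exact Or.inl h
    · exact Or.inr h
  have wx : ∃ p : G.Walk w x, ∀ v ∈ p.support, v ∈ W ∨ v ∈ ({x} : Set V) ∨ v ∈ ({c0} : Set V) := by
    refine ⟨SimpleGraph.Walk.cons hwc0 (SimpleGraph.Walk.cons (hC c0 hc0C).2.1.symm
      SimpleGraph.Walk.nil), ?_⟩
    intro v hv
    rw [SimpleGraph.Walk.support_cons, List.mem_cons, SimpleGraph.Walk.support_cons,
      List.mem_cons, SimpleGraph.Walk.support_nil, List.mem_singleton] at hv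
    rcases hv with h | h | h
    · left; rw [h]; exact hwW
    · right; right; exact h
    · right; left; exact h
  have dis : Disjoint {v | (v ∉ C ∧ v ∉ W ∧ v ≠ x) ∨ v ∈ D} (W ∪ {x} ∪ {c0}) := by
    rw [Set.disjoint_left]
    intro v hv hv2
    rcases hv2 with (h | h) | h
    · rcases hv with h1 | h1
      · exact h1.2.1 h
      · exact (hC v (hDC v h1)).1 h
    · rw [Set.mem_singleton_iff] at h
      rcases hv with h1 | h1
      · exact h1.2.2 h
      · exact hxC (h ▸ hDC v h1)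
    · rw [Set.mem_singleton_iff] at h
      rcases hv with h1 | h1
      · exact h1.1 (h ▸ hc0C)
      · exact hc0D (h ▸ h1)
  have nY : ∀ z ∈ C, z ∉ D → z ∉ {v | (v ∉ C ∧ v ∉ W ∧ v ≠ x) ∨ v ∈ D} := by
    intro z hz hzD h
    rcases h with h | h
    · exact h.1 hz
    · exact hzD h
  have nX : ∀ z ∈ C, z ∉ ({x} : Set V) := fun z hz h => hxC (h ▸ hz)
  exact theta hG W {x} {c0} {v | (v ∉ C ∧ v ∉ W ∧ v ≠ x) ∨ v ∈ D}
    {v | (v ∉ C ∧ v ∉ W ∧ v ≠ x) ∨ v ∈ D} {v | (v ∉ C ∧ v ∉ W ∧ v ≠ x) ∨ v ∈ D}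
    w x z1 z2 z3 (toW z1 m1) (toW z2 m2) (toW z3 m3) (toX z1 m1) (toX z2 m2) (toX z3 m3)
    wx w12 w23 w13 n12 n23 n13
    (Set.disjoint_singleton_right.2 hx)
    (hC z1 m1).1 (nX z1 m1) (fun h => hc01 h.symm)
    (hC z2 m2).1 (nX z2 m2) (fun h => hc02 h.symm)
    (hC z3 m3).1 (nX z3 m3) (fun h => hc03 h.symm)
    (nY z3 m3 d3) (nY z1 m1 d1) (nY z2 m2 d2) dis dis dis

/-- the relation `E`: distinct vertices of `C` which are adjacent or have a common neighbour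
outside `C`, `W` and `x` -/
def FourE (G : SimpleGraph V) (W : Set V) (x : V) (C : Finset V) (c d : V) : Prop :=
  c ∈ C ∧ d ∈ C ∧ c ≠ d ∧
    (G.Adj c d ∨ ∃ y, (y ∉ C ∧ y ∉ W ∧ y ≠ x) ∧ G.Adj y c ∧ G.Adj y d)

theorem four_aux_symm {W : Set V} {x : V} {C : Finset V} (u v : V) (h : FourE G W x C u v) :
    FourE G W x C v u := by
  obtain ⟨h1, h2, h3, h4⟩ := h
  refine ⟨h2, h1, Ne.symm h3, ?_⟩
  rcases h4 with h | ⟨y, hy, h5, h6⟩
  · exact Or.inl h.symm
  · exact Or.inr ⟨y, hy, h6, h5⟩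

theorem four_aux_walk {W : Set V} {x : V} {C : Finset V} {u v : V} (h : FourE G W x C u v)
    (D : Finset V) :
    ∃ p : G.Walk u v, ∀ z ∈ p.support, z = u ∨ z = v ∨
      z ∈ {v | (v ∉ C ∧ v ∉ W ∧ v ≠ x) ∨ v ∈ D} := by
  obtain ⟨-, -, -, h4⟩ := h
  rcases h4 with h | ⟨y, hy, h5, h6⟩
  · refine ⟨SimpleGraph.Walk.cons h SimpleGraph.Walk.nil, ?_⟩
    intro z hz
    rw [SimpleGraph.Walk.support_cons, List.mem_cons, SimpleGraph.Walk.support_nil,
      List.mem_singleton] at hz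
    rcases hz with h | h
    · exact Or.inl h
    · exact Or.inr (Or.inl h)
  · refine ⟨SimpleGraph.Walk.cons h5.symm (SimpleGraph.Walk.cons h6 SimpleGraph.Walk.nil), ?_⟩
    intro z hz
    rw [SimpleGraph.Walk.support_cons, List.mem_cons, SimpleGraph.Walk.support_cons,
      List.mem_cons, SimpleGraph.Walk.support_nil, List.mem_singleton] at hz
    rcases hz with h | h | h
    · exact Or.inl h
    · right; right; left; rw [h]; exact hy
    · exact Or.inr (Or.inl h)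

theorem four_aux_walk_append {Y : Set V} {u v w : V} (hv : v ∈ Y)
    (h1 : ∃ p : G.Walk u v, ∀ z ∈ p.support, z = u ∨ z = v ∨ z ∈ Y)
    (h2 : ∃ p : G.Walk v w, ∀ z ∈ p.support, z = v ∨ z = w ∨ z ∈ Y) :
    ∃ p : G.Walk u w, ∀ z ∈ p.support, z = u ∨ z = w ∨ z ∈ Y := by
  obtain ⟨p, hp⟩ := h1
  obtain ⟨q, hq⟩ := h2
  refine ⟨p.append q, ?_⟩
  intro z hz
  rw [SimpleGraph.Walk.mem_support_append_iff] at hz
  rcases hz with h | h
  · rcases hp z h with h | h | h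
    · exact Or.inl h
    · right; right; rw [h]; exact hv
    · exact Or.inr (Or.inr h)
  · rcases hq z h with h | h | h
    · right; right; rw [h]; exact hv
    · exact Or.inr (Or.inl h)
    · exact Or.inr (Or.inr h)

/-- there are no four vertices of `C`, pairwise linked avoiding `W` and `x`, if `C` consists of
at least six vertices adjacent to `x` and to the connected set `W` -/
theorem four (hG : NoWeak G) (W : Set V) (x : V) (C : Finset V)
    (hW : ∀ u ∈ W, ∀ v ∈ W, ∃ p : G.Walk u v, ∀ z ∈ p.support, z ∈ W) (hx : x ∉ W)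
    (hC : ∀ c ∈ C, c ∉ W ∧ G.Adj x c ∧ ∃ u ∈ W, G.Adj u c) (h6 : 6 ≤ C.card)
    (a : Fin 4 → V) (ha : Function.Injective a) (haC : ∀ i, a i ∈ C)
    (hl : ∀ i j, i ≠ j → Lnk G (insert x W) (a i) (a j)) : False := by
  classical
  have th := four_aux_theta hG W x C hW hx hC h6
  refine four_aux_comb (E := FourE G W x C) four_aux_symm (fun u h => h.2.2.1 rfl) ?_ ?_ ?_ ?_ a ha
    ?_
  · -- degree
    intro c a1 a2 a3 n12 n13 n23 e1 e2 e3
    refine th {c} (by simp) (by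
      intro v hv
      rw [Finset.mem_singleton] at hv
      rw [hv]; exact e1.1) a1 a2 a3 e1.2.1 e2.2.1 e3.2.1 n12 n13 n23
      (by rw [Finset.mem_singleton]; exact Ne.symm e1.2.2.1)
      (by rw [Finset.mem_singleton]; exact Ne.symm e2.2.2.1)
      (by rw [Finset.mem_singleton]; exact Ne.symm e3.2.2.1) ?_ ?_ ?_
    · exact four_aux_walk_append (v := c) (Or.inr (Finset.mem_singleton_self _))
        (four_aux_walk (four_aux_symm _ _ e1) _) (four_aux_walk e2 _)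
    · exact four_aux_walk_append (v := c) (Or.inr (Finset.mem_singleton_self _))
        (four_aux_walk (four_aux_symm _ _ e2) _) (four_aux_walk e3 _)
    · exact four_aux_walk_append (v := c) (Or.inr (Finset.mem_singleton_self _))
        (four_aux_walk (four_aux_symm _ _ e1) _) (four_aux_walk e3 _)
  · -- triangles
    intro z1 z2 z3 e1 e2 e3
    exact th ∅ (by simp) (by simp) z1 z2 z3 e1.1 e2.1 e3.1 e1.2.2.1 (Ne.symm e3.2.2.1) e2.2.2.1
      (by simp) (by simp) (by simp) (four_aux_walk e1 _) (four_aux_walk e2 _)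
      (four_aux_walk (four_aux_symm _ _ e3) _)
  · -- 4-cycles
    intro z1 z2 z3 z4 n13 n24 e1 e2 e3 e4
    refine th {z4} (by simp) (by
      intro v hv
      rw [Finset.mem_singleton] at hv
      rw [hv]; exact e4.1) z1 z2 z3 e1.1 e2.1 e3.1 e1.2.2.1 n13 e2.2.2.1
      (by rw [Finset.mem_singleton]; exact Ne.symm e4.2.2.1)
      (by rw [Finset.mem_singleton]; exact n24)
      (by rw [Finset.mem_singleton]; exact e3.2.2.1) (four_aux_walk e1 _) (four_aux_walk e2 _) ?_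
    exact four_aux_walk_append (v := z4) (Or.inr (Finset.mem_singleton_self _))
        (four_aux_walk (four_aux_symm _ _ e4) _) (four_aux_walk (four_aux_symm _ _ e3) _)
  · -- 5-cycles
    intro z1 z2 z3 z4 z5 n13 n14 n24 n25 n35 e1 e2 e3 e4 e5
    refine th {z4, z5} Finset.card_le_two (by
      intro v hv
      rw [Finset.mem_insert, Finset.mem_singleton] at hv
      rcases hv with h | h
      · rw [h]; exact e4.1
      · rw [h]; exact e5.1) z1 z2 z3 e1.1 e2.1 e3.1 e1.2.2.1 n13 e2.2.2.1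
      (by
        rw [Finset.mem_insert, Finset.mem_singleton, not_or]
        exact ⟨n14, Ne.symm e5.2.2.1⟩)
      (by
        rw [Finset.mem_insert, Finset.mem_singleton, not_or]
        exact ⟨n24, n25⟩)
      (by
        rw [Finset.mem_insert, Finset.mem_singleton, not_or]
        exact ⟨e3.2.2.1, n35⟩) (four_aux_walk e1 _) (four_aux_walk e2 _) ?_
    have h4 : z4 ∈ {v | (v ∉ C ∧ v ∉ W ∧ v ≠ x) ∨ v ∈ ({z4, z5} : Finset V)} := by
      right; simp
    have h5 : z5 ∈ {v | (v ∉ C ∧ v ∉ W ∧ v ≠ x) ∨ v ∈ ({z4, z5} : Finset V)} := by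
      right; simp
    exact four_aux_walk_append h5 (four_aux_walk (four_aux_symm _ _ e5) _)
      (four_aux_walk_append h4 (four_aux_walk (four_aux_symm _ _ e4) _)
        (four_aux_walk (four_aux_symm _ _ e3) _))
  · -- distances
    intro i j hij
    have hne : a i ≠ a j := fun e => hij (ha e)
    rcases hl i j hij with h | ⟨y, hy, h1, h2⟩
    · exact Or.inl ⟨haC i, haC j, hne, Or.inl h⟩
    · rw [Set.mem_insert_iff, not_or] at hy
      by_cases hyC : y ∈ C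
      · exact Or.inr ⟨y, ⟨haC i, hyC, h1.ne.symm, Or.inl h1.symm⟩,
          ⟨hyC, haC j, h2.ne, Or.inl h2⟩⟩
      · exact Or.inl ⟨haC i, haC j, hne, Or.inr ⟨y, ⟨hyC, hy.2, hy.1⟩, h1, h2⟩⟩

end Pool.Agent.TH246.RC
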