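import Pool.Agent.TH246.RC.Defs
import Pool.Agent.TH953.PathPair3

set_option autoImplicit false

namespace Pool.Agent.TH246.RC

open Finset

variable {V : Type} [Fintype V] {G : SimpleGraph V}

/-- a walk in an induced subgraph stays in the vertex set -/
theorem hub_walk {V : Type} {G : SimpleGraph V} {S : Set V} {z1 z2 : S}
    (W : (G.induce S).Walk z1 z2) : ∃ W' : G.Walk z1.1 z2.1, ∀ x ∈ W'.support, x ∈ S := by
  induction W with
  | nil =>
    rename_i u
    refine ⟨SimpleGraph.Walk.nil, ?_⟩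
    intro x hx
    rw [SimpleGraph.Walk.support_nil, List.mem_singleton] at hx
    rw [hx]; exact u.2
  | cons h _ ih =>
    rename_i u v w _
    obtain ⟨W', hW'⟩ := ih
    have h' : G.Adj u.1 v.1 := h
    refine ⟨SimpleGraph.Walk.cons h' W', ?_⟩
    intro x hx
    rw [SimpleGraph.Walk.support_cons, List.mem_cons] at hx
    rcases hx with rfl | hx
    · exact u.2
    · exact hW' x hx

open Pool.Agent.Helper805.CHS in
/-- no model of `K_5` -/
theorem hub_noMod {V : Type} {G : SimpleGraph V} (hG : NoWeak G) (P : Finset (Set V)) :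
    ¬ Mod G P 5 := by
  rintro ⟨f, h1, h2, h3, -, -⟩
  have hne : ∀ a, ∃ x, x ∈ f a := fun a => nonempty_of_conn (h1 a)
  choose p hp using hne
  have key : ∀ a, ∀ u ∈ f a, ∀ v ∈ f a, ∃ W : G.Walk u v, ∀ x ∈ W.support, x ∈ f a := by
    intro a u hu v hv
    obtain ⟨W⟩ := (h1 a).preconnected ⟨u, hu⟩ ⟨v, hv⟩
    exact hub_walk W
  refine hG p (fun a b => f a ∪ f b) ?_ ?_
  · intro a b hab
    obtain ⟨u, hu, v, hv, huv⟩ := h3 a b hab.ne
    obtain ⟨W1, hW1⟩ := key a (p a) (hp a) u hu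
    obtain ⟨W2, hW2⟩ := key b v hv (p b) (hp b)
    refine ⟨W1.append (SimpleGraph.Walk.cons huv W2), ?_⟩
    intro x hx
    rw [SimpleGraph.Walk.mem_support_append_iff, SimpleGraph.Walk.support_cons, List.mem_cons] at hx
    rcases hx with hx | rfl | hx
    · exact Or.inl (hW1 x hx)
    · exact Or.inl hu
    · exact Or.inr (hW2 x hx)
  · intro a b c d _ _ hac had hbc hbd
    rw [Set.disjoint_union_left, Set.disjoint_union_right, Set.disjoint_union_right]
    exact ⟨⟨h2 a c hac, h2 a d had⟩, h2 b c hbc, h2 b d hbd⟩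

/-- a star is connected -/
theorem hub_star {V : Type} {G : SimpleGraph V} (r : V) (S : Set V) (hr : r ∈ S)
    (h : ∀ y ∈ S, y ≠ r → G.Adj y r) : (G.induce S).Connected := by
  have key : ∀ y : S, (G.induce S).Reachable y ⟨r, hr⟩ := by
    intro y
    by_cases hy : y.1 = r
    · have : y = ⟨r, hr⟩ := Subtype.ext hy
      rw [this]
    · apply SimpleGraph.Adj.reachable
      exact h y.1 y.2 hy
  have : Nonempty S := ⟨⟨r, hr⟩⟩
  refine ⟨fun a b => (key a).trans (key b).symm⟩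

/-- if any two vertices of `R` are linked avoiding `Z` then some vertex outside `Z` has many
neighbours in `R` -/
theorem hub (hG : NoWeak G) (Z : Set V) (R : Finset V)
    (hl : ∀ r ∈ R, ∀ s ∈ R, r ≠ s → Lnk G Z r s) (D : ℕ)
    (hD : ∀ y, y ∉ Z → (nb G R y).card ≤ D) : R.card ≤ 28 * D + 15 := by
  classical
  -- middle vertices
  have hm : ∀ r s, ∃ y, r ∈ R → s ∈ R → r ≠ s → ¬ G.Adj r s → y ∉ Z ∧ G.Adj y r ∧ G.Adj y s := by
    intro r s
    by_cases hc : r ∈ R ∧ s ∈ R ∧ r ≠ s ∧ ¬ G.Adj r s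
    · obtain ⟨h1, h2, h3, h4⟩ := hc
      rcases hl r h1 s h2 h3 with h | ⟨y, hy⟩
      · exact absurd h h4
      · exact ⟨y, fun _ _ _ _ => hy⟩
    · exact ⟨r, fun h1 h2 h3 h4 => absurd ⟨h1, h2, h3, h4⟩ hc⟩
  choose m hm using hm
  let A1 : Finset (V × V) := R.offDiag.filter (fun x => G.Adj x.1 x.2)
  let A2 : Finset (V × V) := R.offDiag.filter (fun x => ¬ G.Adj x.1 x.2 ∧ m x.1 x.2 ∈ R)
  let A3 : Finset (V × V) := R.offDiag.filter (fun x => ¬ G.Adj x.1 x.2 ∧ m x.1 x.2 ∉ R)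
  have mem1 : ∀ x, x ∈ A1 ↔ (x.1 ∈ R ∧ x.2 ∈ R ∧ x.1 ≠ x.2) ∧ G.Adj x.1 x.2 := by
    intro x; simp only [A1, Finset.mem_filter, Finset.mem_offDiag]
  have mem2 : ∀ x, x ∈ A2 ↔ (x.1 ∈ R ∧ x.2 ∈ R ∧ x.1 ≠ x.2) ∧ ¬ G.Adj x.1 x.2 ∧ m x.1 x.2 ∈ R := by
    intro x; simp only [A2, Finset.mem_filter, Finset.mem_offDiag]
  have mem3 : ∀ x, x ∈ A3 ↔ (x.1 ∈ R ∧ x.2 ∈ R ∧ x.1 ≠ x.2) ∧ ¬ G.Adj x.1 x.2 ∧ m x.1 x.2 ∉ R := by
    intro x; simp only [A3, Finset.mem_filter, Finset.mem_offDiag]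
  have hcover : R.offDiag ⊆ A1 ∪ (A2 ∪ A3) := by
    intro x hx
    have hx' := Finset.mem_offDiag.1 hx
    rw [Finset.mem_union, Finset.mem_union, mem1, mem2, mem3]
    by_cases h1 : G.Adj x.1 x.2
    · exact Or.inl ⟨hx', h1⟩
    · by_cases h2 : m x.1 x.2 ∈ R
      · exact Or.inr (Or.inl ⟨hx', h1, h2⟩)
      · exact Or.inr (Or.inr ⟨hx', h1, h2⟩)
  -- the number of pairs of type three at `y` starting at `r`
  let g : V → V → ℕ := fun y r => (A3.filter (fun x => m x.1 x.2 = y ∧ x.1 = r)).card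
  have hf : ∀ y, ∃ r, (nb G R y).Nonempty → r ∈ nb G R y ∧ ∀ r' ∈ nb G R y, g y r' ≤ g y r := by
    intro y
    by_cases hc : (nb G R y).Nonempty
    · obtain ⟨r, h1, h2⟩ := Finset.exists_max_image (nb G R y) (g y) hc
      exact ⟨r, fun _ => ⟨h1, h2⟩⟩
    · exact ⟨y, fun h => absurd h hc⟩
  choose f hf using hf
  let X : V → Set V := fun r => {y | y = r ∨ (y ∉ R ∧ (nb G R y).Nonempty ∧ f y = r)}
  have hXr : ∀ r, r ∈ X r := fun r => Or.inl rfl
  have hXinj : ∀ r ∈ R, ∀ s ∈ R, r ≠ s → Disjoint (X r) (X s) := by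
    intro r hr s hs hrs
    rw [Set.disjoint_left]
    intro y hy1 hy2
    rcases hy1 with h1 | ⟨h1, -, h2⟩
    · rcases hy2 with h3 | ⟨h3, -, h4⟩
      · exact hrs (h1.symm.trans h3)
      · exact h3 (h1 ▸ hr)
    · rcases hy2 with h3 | ⟨h3, -, h4⟩
      · exact h1 (h3 ▸ hs)
      · exact hrs (h2.symm.trans h4)
  have hXne : ∀ r ∈ R, ∀ s ∈ R, X r = X s → r = s := by
    intro r hr s hs h
    by_contra hne
    have h1 := hXinj r hr s hs hne
    rw [Set.disjoint_left] at h1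
    exact h1 (hXr r) (h ▸ hXr r)
  let P : Finset (Set V) := R.image X
  have hPc : P.card = R.card := Finset.card_image_of_injOn (fun r hr s hs h => hXne r hr s hs h)
  have hF : Pool.Agent.Helper805.CHS.Fam G P := by
    constructor
    · intro A hA
      obtain ⟨r, -, rfl⟩ := Finset.mem_image.1 hA
      apply hub_star r _ (hXr r)
      intro y hy hyr
      rcases hy with h | ⟨-, h1, h2⟩
      · exact absurd h hyr
      · have := (mem_nb.1 (hf y h1).1).2
        rwa [h2] at this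
    · intro A hA B hB hne
      obtain ⟨r, hr, rfl⟩ := Finset.mem_image.1 hA
      obtain ⟨s, hs, rfl⟩ := Finset.mem_image.1 hB
      apply hXinj r hr s hs
      rintro rfl
      exact hne rfl
  have hprs : (Pool.Agent.Helper805.CHS.prs G P).card ≤ 14 * R.card := by
    by_contra hcon
    have h1 := Pool.Agent.Helper805.CHS.mader G 3 P hF (by rw [hPc]; omega)
    exact hub_noMod hG P h1
  let E : Finset (V × V) := R.offDiag.filter (fun x => Pool.Agent.Helper805.CHS.Rl G (X x.1) (X x.2))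
  have hE : E.card ≤ 14 * R.card := by
    refine le_trans ?_ hprs
    apply Finset.card_le_card_of_injOn (fun x => (X x.1, X x.2))
    · intro x hx
      obtain ⟨hx1, hx2⟩ := Finset.mem_filter.1 (Finset.mem_coe.1 hx)
      obtain ⟨g1, g2, g3⟩ := Finset.mem_offDiag.1 hx1
      apply Finset.mem_coe.2
      rw [Pool.Agent.Helper805.CHS.mem_prs]
      exact ⟨Finset.mem_image_of_mem _ g1, Finset.mem_image_of_mem _ g2,
        fun h => g3 (hXne _ g1 _ g2 h), hx2⟩
    · intro x hx y hy hxy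
      obtain ⟨hx1, -⟩ := Finset.mem_filter.1 (Finset.mem_coe.1 hx)
      obtain ⟨g1, g2, -⟩ := Finset.mem_offDiag.1 hx1
      obtain ⟨hy1, -⟩ := Finset.mem_filter.1 (Finset.mem_coe.1 hy)
      obtain ⟨k1, k2, -⟩ := Finset.mem_offDiag.1 hy1
      obtain ⟨e1, e2⟩ := Prod.mk.inj hxy
      exact Prod.ext (hXne _ g1 _ k1 e1) (hXne _ g2 _ k2 e2)
  have hA1 : A1.card ≤ 14 * R.card := by
    refine le_trans (Finset.card_le_card ?_) hE
    intro x hx
    obtain ⟨h1, h2⟩ := (mem1 x).1 hx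
    exact Finset.mem_filter.2 ⟨Finset.mem_offDiag.2 h1, x.1, hXr _, x.2, hXr _, h2⟩
  have hsum1 : ∑ y ∈ R, (nb G R y).card ≤ A1.card := by
    rw [← Finset.card_sigma]
    apply Finset.card_le_card_of_injOn (fun x => (x.1, x.2))
    · intro x hx
      obtain ⟨hx1, hx2⟩ := Finset.mem_sigma.1 (Finset.mem_coe.1 hx)
      obtain ⟨h3, h4⟩ := mem_nb.1 hx2
      exact Finset.mem_coe.2 ((mem1 _).2 ⟨⟨hx1, h3, h4.ne⟩, h4⟩)
    · intro x _ y _ hxy
      obtain ⟨e1, e2⟩ := Prod.mk.inj hxy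
      cases x; cases y
      simp only at e1 e2
      subst e1; subst e2
      rfl
  have hA2 : A2.card ≤ D * A1.card := by
    refine le_trans ?_ (Nat.mul_le_mul_left D hsum1)
    rw [Finset.mul_sum]
    rw [Finset.card_eq_sum_card_fiberwise (f := fun x : V × V => m x.1 x.2) (t := R)
      (fun x hx => ((mem2 x).1 (Finset.mem_coe.1 hx)).2.2)]
    apply Finset.sum_le_sum
    intro y hy
    by_cases hyZ : y ∈ Z
    · have : (A2.filter (fun x => m x.1 x.2 = y)) = ∅ := by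
        rw [Finset.filter_eq_empty_iff]
        intro x hx hxy
        obtain ⟨⟨h1, h2, h3⟩, h4, h5⟩ := (mem2 x).1 hx
        exact (hm x.1 x.2 h1 h2 h3 h4).1 (hxy ▸ hyZ)
      rw [this]
      simp
    · have h1 : (A2.filter (fun x => m x.1 x.2 = y)) ⊆ nb G R y ×ˢ nb G R y := by
        intro x hx
        obtain ⟨hx1, hxy⟩ := Finset.mem_filter.1 hx
        obtain ⟨⟨h1, h2, h3⟩, h4, h5⟩ := (mem2 x).1 hx1
        obtain ⟨-, h6, h7⟩ := hm x.1 x.2 h1 h2 h3 h4
        rw [hxy] at h6 h7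
        exact Finset.mem_product.2 ⟨mem_nb.2 ⟨h1, h6⟩, mem_nb.2 ⟨h2, h7⟩⟩
      refine (Finset.card_le_card h1).trans ?_
      rw [Finset.card_product]
      exact Nat.mul_le_mul_right _ (hD y hyZ)
  let A4 : Finset (V × V) := A3.filter (fun x => x.1 = f (m x.1 x.2))
  have hA4 : A4.card ≤ 14 * R.card := by
    refine le_trans (Finset.card_le_card ?_) hE
    intro x hx
    obtain ⟨hx1, hx2⟩ := Finset.mem_filter.1 hx
    obtain ⟨⟨h1, h2, h3⟩, h4, h5⟩ := (mem3 x).1 hx1
    obtain ⟨-, h6, h7⟩ := hm x.1 x.2 h1 h2 h3 h4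
    refine Finset.mem_filter.2 ⟨Finset.mem_offDiag.2 ⟨h1, h2, h3⟩, m x.1 x.2, ?_, x.2, hXr _, h7⟩
    right
    exact ⟨h5, ⟨x.1, mem_nb.2 ⟨h1, h6⟩⟩, hx2.symm⟩
  have hA3 : A3.card ≤ D * A4.card := by
    rw [Finset.card_eq_sum_card_fiberwise (s := A3) (f := fun x : V × V => m x.1 x.2)
      (t := Finset.univ) (fun x _ => Finset.mem_coe.2 (Finset.mem_univ _)),
      Finset.card_eq_sum_card_fiberwise (s := A4) (f := fun x : V × V => m x.1 x.2)
      (t := Finset.univ) (fun x _ => Finset.mem_coe.2 (Finset.mem_univ _)), Finset.mul_sum]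
    apply Finset.sum_le_sum
    intro y _
    by_cases hc : (A3.filter (fun x => m x.1 x.2 = y)) = ∅
    · rw [hc]; simp
    · obtain ⟨x0, hx0⟩ := Finset.nonempty_iff_ne_empty.2 hc
      obtain ⟨hx1, hxy⟩ := Finset.mem_filter.1 hx0
      obtain ⟨⟨h1, h2, h3⟩, h4, h5⟩ := (mem3 x0).1 hx1
      obtain ⟨h8, h6, h7⟩ := hm x0.1 x0.2 h1 h2 h3 h4
      rw [hxy] at h6 h7 h8
      have hne : (nb G R y).Nonempty := ⟨x0.1, mem_nb.2 ⟨h1, h6⟩⟩
      obtain ⟨hf1, hf2⟩ := hf y hne
      have e1 : (A3.filter (fun x => m x.1 x.2 = y)).card = ∑ r ∈ nb G R y, g y r := by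
        rw [Finset.card_eq_sum_card_fiberwise (f := fun x : V × V => x.1) (t := nb G R y)]
        · apply Finset.sum_congr rfl
          intro r _
          simp only [g]
          rw [Finset.filter_filter]
        · intro x hx
          obtain ⟨hx1, hxy⟩ := Finset.mem_filter.1 (Finset.mem_coe.1 hx)
          obtain ⟨⟨h1, h2, h3⟩, h4, h5⟩ := (mem3 x).1 hx1
          obtain ⟨h8, h6, h7⟩ := hm x.1 x.2 h1 h2 h3 h4
          rw [hxy] at h6
          exact Finset.mem_coe.2 (mem_nb.2 ⟨h1, h6⟩)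
      have e2 : (A4.filter (fun x => m x.1 x.2 = y)).card = g y (f y) := by
        simp only [A4, g]
        congr 1
        rw [Finset.filter_filter]
        apply Finset.filter_congr
        intro x _
        constructor
        · rintro ⟨k1, k2⟩
          exact ⟨k2, by rw [k1, k2]⟩
        · rintro ⟨k1, k2⟩
          exact ⟨by rw [k1, k2], k1⟩
      rw [e1, e2]
      calc ∑ r ∈ nb G R y, g y r ≤ ∑ r ∈ nb G R y, g y (f y) :=
            Finset.sum_le_sum (fun r hr => hf2 r hr)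
        _ = (nb G R y).card * g y (f y) := by rw [Finset.sum_const, smul_eq_mul]
        _ ≤ D * g y (f y) := Nat.mul_le_mul_right _ (hD y h8)
  have htot : R.card * R.card - R.card ≤ A1.card + (A2.card + A3.card) := by
    rw [← Finset.offDiag_card]
    exact (Finset.card_le_card hcover).trans ((Finset.card_union_le _ _).trans
      (Nat.add_le_add_left (Finset.card_union_le _ _) _))
  have h2 : A2.card ≤ D * (14 * R.card) := hA2.trans (Nat.mul_le_mul_left D hA1)
  have h3 : A3.card ≤ D * (14 * R.card) := hA3.trans (Nat.mul_le_mul_left D hA4)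
  have h4 : R.card * R.card ≤ (28 * D + 15) * R.card := by
    have h5 : R.card * R.card ≤ 14 * R.card + (D * (14 * R.card) + D * (14 * R.card)) + R.card := by
      omega
    calc R.card * R.card ≤ 14 * R.card + (D * (14 * R.card) + D * (14 * R.card)) + R.card := h5
      _ = (28 * D + 15) * R.card := by ring
  rcases Nat.eq_zero_or_pos R.card with h0 | h0
  · rw [h0]; exact Nat.zero_le _
  · exact Nat.le_of_mul_le_mul_right h4 h0

end Pool.Agent.TH246.RC
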