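import Pool.Agent.TH246.RC.Six
import Pool.Agent.TH246.RC.Four
import Pool.Agent.TH246.RC.Hub

set_option autoImplicit false

namespace Pool.Agent.TH246.RC

open Finset

variable {V : Type} [Fintype V] {G : SimpleGraph V} {p : ℕ} {lab : V → V → Fin p} {R : Finset V}

omit [Fintype V] in
/-- two elements of a relative clique are linked avoiding every set of vertices which do not
distinguish them -/
theorem outer_lnk (hR : RelCl G lab R) {r s : V} (hr : r ∈ R) (hs : s ∈ R) (hrs : r ≠ s)
    (Z : Set V) (hZ : ∀ z ∈ Z, G.Adj z r → G.Adj z s → lab z r = lab z s) : Lnk G Z r s := by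
  rcases hR r hr s hs hrs with h | ⟨y, h1, h2, h3⟩
  · exact Or.inl h
  · refine Or.inr ⟨y, fun hy => h3 (hZ y hy h1 h2), h1, h2⟩

/-- at most three elements of a relative clique have prescribed labels at two vertices -/
theorem three (hG : NoWeak G) (hR : RelCl G lab R) {w x : V} (hwx : w ≠ x)
    (h6 : 6 ≤ (cn G w x).card) (S : Finset V) (hS : ∀ s ∈ S, s ∈ R ∧ G.Adj w s ∧ G.Adj x s)
    (h1 : ∀ s ∈ S, ∀ t ∈ S, lab w s = lab w t) (h2 : ∀ s ∈ S, ∀ t ∈ S, lab x s = lab x t) :
    S.card ≤ 3 := by
  by_contra hc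
  obtain ⟨T, hTS, hT⟩ := Finset.exists_subset_card_eq (show 4 ≤ S.card by omega)
  let e := T.equivFinOfCardEq hT
  have hmem : ∀ i : Fin 4, ((e.symm i : T) : V) ∈ S := fun i => hTS (e.symm i).2
  refine four hG {w} x (cn G w x) ?_ ?_ ?_ h6 (fun i => ((e.symm i : T) : V)) ?_ ?_ ?_
  · intro u hu v hv
    rw [Set.mem_singleton_iff] at hu hv
    subst hu
    subst hv
    exact ⟨SimpleGraph.Walk.nil, by simp⟩
  · intro h
    exact hwx (Set.mem_singleton_iff.mp h).symm
  · intro c hc
    rw [mem_cn] at hc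
    refine ⟨?_, hc.2, w, rfl, hc.1⟩
    intro h
    rw [Set.mem_singleton_iff] at h
    rw [h] at hc
    exact hc.1.ne rfl
  · intro i j h
    exact e.symm.injective (Subtype.ext h)
  · intro i
    rw [mem_cn]
    exact (hS _ (hmem i)).2
  · intro i j hij
    refine outer_lnk hR (hS _ (hmem i)).1 (hS _ (hmem j)).1
      (fun h => hij (e.symm.injective (Subtype.ext h))) _ ?_
    intro z hz _ _
    rcases hz with hz | hz
    · rw [hz]
      exact h2 _ (hmem i) _ (hmem j)
    · rw [Set.mem_singleton_iff] at hz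
      rw [hz]
      exact h1 _ (hmem i) _ (hmem j)

/-- a large class of neighbours of `w` with the same label has a second hub `x` -/
theorem outer (hG : NoWeak G) (hR : RelCl G lab R) {w : V} {α : Fin p}
    (h : 200 ≤ (cl G lab R w α).card) :
    ∃ x, x ≠ w ∧ (∀ s ∈ cl G lab R w α, s = x ∨ G.Adj x s) ∧
      (nb G (cl G lab R w α) x).card ≤ 3 * p := by
  classical
  obtain ⟨x, hxw, hx7⟩ : ∃ x, x ≠ w ∧ 7 ≤ (nb G (cl G lab R w α) x).card := by
    by_contra hc
    push Not at hc
    have hb := hub hG {w} (cl G lab R w α) ?_ 6 ?_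
    · omega
    · intro r hr s hs hrs
      rw [mem_cl] at hr hs
      refine outer_lnk hR hr.1 hs.1 hrs _ ?_
      intro z hz _ _
      rw [Set.mem_singleton_iff] at hz
      rw [hz, hr.2.2, hs.2.2]
    · intro y hy
      have := hc y (fun h => hy (Set.mem_singleton_iff.mpr h))
      omega
  have hsub : ∀ a ∈ nb G (cl G lab R w α) x, a ∈ R ∧ G.Adj w a ∧ G.Adj x a ∧ lab w a = α := by
    intro a ha
    rw [mem_nb, mem_cl] at ha
    exact ⟨ha.1.1, ha.1.2.1, ha.2, ha.1.2.2⟩
  refine ⟨x, hxw, ?_, ?_⟩
  · intro s hs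
    by_contra hc
    push Not at hc
    obtain ⟨hsx, hadj⟩ := hc
    rw [mem_cl] at hs
    have h6 := six hG (w := w) (x := x) (s := s) hxw.symm hs.2.1.ne' hsx
      (nb G (cl G lab R w α) x) (fun a ha => ⟨(hsub a ha).2.1, (hsub a ha).2.2.1⟩)
      (fun hsA => hadj (mem_nb.mp hsA).2) ?_
    · omega
    · intro a ha
      have ha' := hsub a ha
      refine outer_lnk hR hs.1 ha'.1 ?_ _ ?_
      · intro h
        rw [h] at hadj
        exact hadj ha'.2.2.1
      · intro z hz hzs _
        rcases hz with hz | hz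
        · rw [hz, hs.2.2, ha'.2.2.2]
        · rw [Set.mem_singleton_iff] at hz
          rw [hz] at hzs
          exact absurd hzs hadj
  · have h6 : 6 ≤ (cn G w x).card := by
      have : nb G (cl G lab R w α) x ⊆ cn G w x := by
        intro a ha
        rw [mem_cn]
        exact ⟨(hsub a ha).2.1, (hsub a ha).2.2.1⟩
      have := Finset.card_le_card this
      omega
    have hc := Finset.card_le_mul_card_image_of_maps_to (s := nb G (cl G lab R w α) x)
      (t := (Finset.univ : Finset (Fin p))) (f := lab x) (fun a _ => Finset.mem_univ _) 3 ?_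
    · rwa [Finset.card_univ, Fintype.card_fin] at hc
    · intro β _
      refine three hG hR hxw.symm h6 _ ?_ ?_ ?_
      · intro s hs
        rw [Finset.mem_filter] at hs
        have := hsub s hs.1
        exact ⟨this.1, this.2.1, this.2.2.1⟩
      · intro s hs t ht
        rw [Finset.mem_filter] at hs ht
        rw [(hsub s hs.1).2.2.2, (hsub t ht.1).2.2.2]
      · intro s hs t ht
        rw [Finset.mem_filter] at hs ht
        rw [hs.2, ht.2]

theorem outer_le (hG : NoWeak G) (hR : RelCl G lab R) (hp : 100 ≤ p) (w : V) (α : Fin p) :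
    (cl G lab R w α).card ≤ 3 * p + 1 := by
  classical
  by_cases h : 200 ≤ (cl G lab R w α).card
  · obtain ⟨x, _, h1, h2⟩ := outer hG hR h
    have hsub : cl G lab R w α ⊆ insert x (nb G (cl G lab R w α) x) := by
      intro s hs
      rw [Finset.mem_insert, mem_nb]
      rcases h1 s hs with h3 | h3
      · exact Or.inl h3
      · exact Or.inr ⟨hs, h3⟩
    have h3 := Finset.card_le_card hsub
    have h4 := Finset.card_insert_le x (nb G (cl G lab R w α) x)
    omega
  · omega

end Pool.Agent.TH246.RC
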