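import Pool.Agent.TH246.RC.Far
import Pool.Agent.TH246.RC.Outer

set_option autoImplicit false

namespace Pool.Agent.TH246.RC

open Finset

variable {V : Type} [Fintype V] {G : SimpleGraph V} {p : ℕ} {lab : V → V → Fin p} {R : Finset V}

theorem oneFar_key (hG : NoWeak G) (hR : RelCl G lab R) (hp : 100 ≤ p) (w r0 : V)
    (hr0 : r0 ∈ R) (hr0w : ¬ G.Adj w r0) (nr0 : r0 ≠ w)
    (hcl : ∀ α, (cl G lab R w α).card = 3 * p + 1) (α : Fin p) :
    ∃ x, x ∈ cl G lab R w α ∧ (nb G (cl G lab R w α) x).card = 3 * p ∧ G.Adj x r0 := by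
  classical
  obtain ⟨x, hxw, hx1, hx2⟩ := outer hG hR (w := w) (α := α) (by rw [hcl]; omega)
  have hsub : cl G lab R w α ⊆ (cl G lab R w α ∩ {x}) ∪ nb G (cl G lab R w α) x := by
    intro s hs
    rcases hx1 s hs with rfl | h
    · simp [hs]
    · exact mem_union_right _ (mem_nb.2 ⟨hs, h⟩)
  have hc := (card_le_card hsub).trans (card_union_le _ _)
  rw [hcl] at hc
  have hxm : x ∈ cl G lab R w α := by
    by_contra hcon
    have h0 : cl G lab R w α ∩ {x} = ∅ := Finset.inter_singleton_of_notMem hcon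
    rw [h0, card_empty] at hc
    omega
  have h1 : (cl G lab R w α ∩ {x}).card ≤ 1 :=
    (card_le_card inter_subset_right).trans (by simp)
  have h3 : (nb G (cl G lab R w α) x).card = 3 * p := by omega
  have hadj := (mem_cl.1 hxm).2.1
  refine ⟨x, hxm, h3, ?_⟩
  have hcb : 7 ≤ (cb G R w x).card := by
    have hs : nb G (cl G lab R w α) x ⊆ cb G R w x := by
      intro s hs
      obtain ⟨hs1, hs2⟩ := mem_nb.1 hs
      obtain ⟨hs3, hs4, _⟩ := mem_cl.1 hs1
      exact mem_cb.2 ⟨hs3, hs4, hs2⟩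
    have := card_le_card hs
    omega
  exact (far hG hR (Ne.symm hxw) hcb hr0 hr0w nr0 (by rintro rfl; exact hr0w hadj)).1

theorem oneFar_final (hG : NoWeak G) (hR : RelCl G lab R) (hp : 100 ≤ p) (w r0 : V)
    (hr0 : r0 ∈ R) (hr0w : ¬ G.Adj w r0) (nr0 : r0 ≠ w)
    (hcl : ∀ α, (cl G lab R w α).card = 3 * p + 1) : False := by
  classical
  choose X hX1 hX2 hX3 using oneFar_key hG hR hp w r0 hr0 hr0w nr0 hcl
  have hXR : ∀ α, X α ∈ R := fun α => (mem_cl.1 (hX1 α)).1
  have hXw : ∀ α, G.Adj w (X α) := fun α => (mem_cl.1 (hX1 α)).2.1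
  have hXl : ∀ α, lab w (X α) = α := fun α => (mem_cl.1 (hX1 α)).2.2
  have hXinj : Function.Injective X := by
    intro α β h
    rw [← hXl α, ← hXl β, h]
  let α0 : Fin p := ⟨0, by omega⟩
  have hxw : X α0 ≠ w := (hXw α0).ne'
  set S := nb G (cl G lab R w α0) (X α0) with hS
  have hSm : ∀ s ∈ S, s ∈ R ∧ G.Adj w s ∧ lab w s = α0 ∧ G.Adj (X α0) s := by
    intro s hs
    obtain ⟨hs1, hs2⟩ := mem_nb.1 hs
    obtain ⟨hs3, hs4, hs5⟩ := mem_cl.1 hs1
    exact ⟨hs3, hs4, hs5, hs2⟩
  have hScard : S.card = 3 * p := hX2 α0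
  have hcn : 6 ≤ (cn G w (X α0)).card := by
    have hsub : S ⊆ cn G w (X α0) := by
      intro s hs
      obtain ⟨_, h1, _, h2⟩ := hSm s hs
      exact mem_cn.2 ⟨h1, h2⟩
    have := card_le_card hsub
    omega
  have hfib : ∀ β : Fin p, (S.filter (fun s => lab (X α0) s = β)).card ≤ 3 := by
    intro β
    apply three hG hR (Ne.symm hxw) hcn
    · intro s hs
      obtain ⟨h0, h1, _, h2⟩ := hSm s (mem_filter.1 hs).1
      exact ⟨h0, h1, h2⟩
    · intro s hs t ht
      rw [(hSm s (mem_filter.1 hs).1).2.2.1, (hSm t (mem_filter.1 ht).1).2.2.1]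
    · intro s hs t ht
      rw [(mem_filter.1 hs).2, (mem_filter.1 ht).2]
  have hsum : S.card = ∑ β : Fin p, (S.filter (fun s => lab (X α0) s = β)).card :=
    card_eq_sum_card_fiberwise (fun s _ => mem_univ _)
  set β0 := lab (X α0) r0 with hβ0
  set F := S.filter (fun s => lab (X α0) s = β0) with hF
  have hFcard : F.card = 3 := by
    refine le_antisymm (hfib β0) ?_
    by_contra hcon
    push Not at hcon
    have hlt : ∑ β : Fin p, (S.filter (fun s => lab (X α0) s = β)).card < ∑ _β : Fin p, 3 :=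
      sum_lt_sum (fun β _ => hfib β) ⟨β0, mem_univ _, hcon⟩
    rw [← hsum, hScard] at hlt
    simp at hlt
    omega
  have hFm : ∀ s ∈ F, s ∈ S ∧ lab (X α0) s = β0 := fun s hs => mem_filter.1 hs
  -- bad labels
  have hbad : ∀ v, v ≠ w → v ≠ r0 →
      (univ.filter (fun α : Fin p => G.Adj v (X α))).card ≤ 6 := by
    intro v hvw hvr
    have h6 := six hG (w := w) (x := r0) (s := v) (Ne.symm nr0) hvw hvr
      ((univ.filter (fun α : Fin p => G.Adj v (X α))).image X)
      (by
        intro a ha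
        obtain ⟨α, _, rfl⟩ := mem_image.1 ha
        exact ⟨hXw α, (hX3 α).symm⟩)
      (by
        intro hv
        obtain ⟨α, h1, h2⟩ := mem_image.1 hv
        have := (mem_filter.1 h1).2
        rw [h2] at this
        exact G.loopless.irrefl v this)
      (by
        intro a ha
        obtain ⟨α, h1, rfl⟩ := mem_image.1 ha
        exact Or.inl (mem_filter.1 h1).2)
    rwa [card_image_of_injective _ hXinj] at h6
  have hr0S : r0 ∉ S := fun h => hr0w (hSm r0 h).2.1
  have hvs : ∀ v ∈ insert (X α0) F, v ≠ w ∧ v ≠ r0 := by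
    intro v hv
    rcases mem_insert.1 hv with rfl | hv
    · exact ⟨hxw, fun h => hr0w (h ▸ hXw α0)⟩
    · have h1 := hSm v (hFm v hv).1
      exact ⟨h1.2.1.ne', fun h => hr0S (h ▸ (hFm v hv).1)⟩
  have hbadall : ((insert (X α0) F).biUnion
      (fun v => univ.filter (fun α : Fin p => G.Adj v (X α)))).card ≤ 24 := by
    refine card_biUnion_le.trans ?_
    refine (sum_le_card_nsmul _ _ 6 ?_).trans ?_
    · intro v hv
      exact hbad v (hvs v hv).1 (hvs v hv).2
    · have := card_insert_le (X α0) F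
      rw [smul_eq_mul]
      omega
  obtain ⟨α1, hα1⟩ : ∃ α1 : Fin p, α1 ∉ insert α0 ((insert (X α0) F).biUnion
      (fun v => univ.filter (fun α : Fin p => G.Adj v (X α)))) := by
    by_contra hcon
    push Not at hcon
    have h1 : (univ : Finset (Fin p)) ⊆ insert α0 ((insert (X α0) F).biUnion
      (fun v => univ.filter (fun α : Fin p => G.Adj v (X α)))) := fun α _ => hcon α
    have h2 := (card_le_card h1).trans (card_insert_le _ _)
    rw [card_univ, Fintype.card_fin] at h2
    omega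
  have hα10 : α1 ≠ α0 := fun h => hα1 (by rw [h]; exact mem_insert_self _ _)
  have hz : ∀ v ∈ insert (X α0) F, ¬ G.Adj v (X α1) := by
    intro v hv hadj
    exact hα1 (mem_insert_of_mem (mem_biUnion.2 ⟨v, hv, mem_filter.2 ⟨mem_univ _, hadj⟩⟩))
  have hzx : X α0 ≠ X α1 := fun h => hα10 (hXinj h).symm
  -- the four vertices
  have hQcard : (insert r0 F).card = 4 := by
    rw [card_insert_of_notMem (fun h => hr0S (hFm r0 h).1), hFcard]
  have hlinkF : ∀ r ∈ F, ∀ s ∈ insert r0 F, r ≠ s →
      Lnk G (insert (X α0) ({w, X α1} : Set V)) r s ∧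
      Lnk G (insert (X α0) ({w, X α1} : Set V)) s r := by
    intro r hr s hs hrs
    have hrm := hSm r (hFm r hr).1
    have hsR : s ∈ R := by
      rcases mem_insert.1 hs with rfl | hs
      · exact hr0
      · exact (hSm s (hFm s hs).1).1
    rcases hR r hrm.1 s hsR hrs with h | ⟨y, hy1, hy2, hy3⟩
    · exact ⟨Or.inl h, Or.inl h.symm⟩
    · have hy : y ∉ (insert (X α0) ({w, X α1} : Set V)) := by
        intro hy
        rcases hy with rfl | rfl | hy
        · -- y = x
          apply hy3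
          rw [(hFm r hr).2]
          rcases mem_insert.1 hs with rfl | hs
          · exact hβ0
          · exact (hFm s hs).2.symm
        · rcases mem_insert.1 hs with rfl | hs
          · exact hr0w hy2
          · apply hy3
            rw [hrm.2.2.1, (hSm s (hFm s hs).1).2.2.1]
        · have hy' : y = X α1 := hy
          subst hy'
          exact hz r (mem_insert_of_mem hr) hy1.symm
      exact ⟨Or.inr ⟨y, hy, hy1, hy2⟩, Or.inr ⟨y, hy, hy2, hy1⟩⟩
  have hlink : ∀ r ∈ insert r0 F, ∀ s ∈ insert r0 F, r ≠ s →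
      Lnk G (insert (X α0) ({w, X α1} : Set V)) r s := by
    intro r hr s hs hrs
    rcases mem_insert.1 hr with rfl | hr'
    · rcases mem_insert.1 hs with rfl | hs'
      · exact absurd rfl hrs
      · exact (hlinkF s hs' r hr hrs.symm).2
    · exact (hlinkF r hr' s hs hrs).1
  let e : (insert r0 F : Finset V) ≃ Fin 4 := Finset.equivFinOfCardEq hQcard
  refine four hG ({w, X α1} : Set V) (X α0) (insert r0 S) ?_ ?_ ?_ ?_
    (fun i => ((e.symm i : (insert r0 F : Finset V)) : V)) ?_ ?_ ?_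
  · intro u hu v hv
    have hwz : G.Adj w (X α1) := hXw α1
    rcases hu with rfl | hu
    · rcases hv with rfl | hv
      · exact ⟨SimpleGraph.Walk.nil, by simp⟩
      · have hv' : v = X α1 := hv
        subst hv'
        exact ⟨SimpleGraph.Walk.cons hwz SimpleGraph.Walk.nil, by simp⟩
    · have hu' : u = X α1 := hu
      subst hu'
      rcases hv with rfl | hv
      · exact ⟨SimpleGraph.Walk.cons hwz.symm SimpleGraph.Walk.nil, by simp⟩
      · have hv' : v = X α1 := hv
        subst hv'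
        exact ⟨SimpleGraph.Walk.nil, by simp⟩
  · intro h
    rcases h with h | h
    · exact hxw h
    · exact hzx h
  · intro c hc
    rcases mem_insert.1 hc with rfl | hc
    · refine ⟨?_, hX3 α0, X α1, Or.inr rfl, hX3 α1⟩
      intro h
      rcases h with h | h
      · exact nr0 h
      · exact hr0w (by rw [show c = X α1 from h]; exact hXw α1)
    · have h1 := hSm c hc
      refine ⟨?_, h1.2.2.2, w, Or.inl rfl, h1.2.1⟩
      intro h
      rcases h with h | h
      · exact h1.2.1.ne' h
      · have h2 : c = X α1 := h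
        rw [h2, hXl α1] at h1
        exact hα10 h1.2.2.1
  · have := card_le_card (subset_insert r0 S)
    omega
  · intro i j hij
    exact e.symm.injective (Subtype.ext hij)
  · intro i
    rcases mem_insert.1 (e.symm i).2 with h | h
    · exact mem_insert.2 (Or.inl h)
    · exact mem_insert_of_mem (hFm _ h).1
  · intro i j hij
    exact hlink _ (e.symm i).2 _ (e.symm j).2 (fun h => hij (e.symm.injective (Subtype.ext h)))

/-- if at most one element of `R` other than `w` is not adjacent to `w`, the bound holds -/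
theorem oneFar (hG : NoWeak G) (hR : RelCl G lab R) (hp : 100 ≤ p) (w : V)
    (h : ∀ r ∈ R, ∀ s ∈ R, ¬ G.Adj w r → ¬ G.Adj w s → r ≠ w → s ≠ w → r = s) :
    R.card ≤ 3 * p ^ 2 + p + 1 := by
  classical
  have hle : ∀ α : Fin p, (cl G lab R w α).card ≤ 3 * p + 1 := outer_le hG hR hp w
  set D := R.filter (fun r => ¬ G.Adj w r ∧ r ≠ w) with hD
  have hDcard : D.card ≤ 1 := by
    rw [card_le_one]
    intro a ha b hb
    obtain ⟨ha1, ha2, ha3⟩ := mem_filter.1 ha
    obtain ⟨hb1, hb2, hb3⟩ := mem_filter.1 hb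
    exact h a ha1 b hb1 ha2 hb2 ha3 hb3
  have hsub : R ⊆ ((R ∩ {w}) ∪ D) ∪ univ.biUnion (fun α : Fin p => cl G lab R w α) := by
    intro r hr
    by_cases h1 : G.Adj w r
    · exact mem_union_right _ (mem_biUnion.2 ⟨lab w r, mem_univ _, mem_cl.2 ⟨hr, h1, rfl⟩⟩)
    · apply mem_union_left
      by_cases h2 : r = w
      · exact mem_union_left _ (mem_inter.2 ⟨hr, by simp [h2]⟩)
      · exact mem_union_right _ (mem_filter.2 ⟨hr, h1, h2⟩)
  have hcard := (card_le_card hsub).trans (card_union_le _ _)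
  have hcard2 := card_union_le (R ∩ {w}) D
  have hcard3 : (univ.biUnion (fun α : Fin p => cl G lab R w α)).card
      ≤ ∑ α : Fin p, (cl G lab R w α).card := card_biUnion_le
  have hw1 : (R ∩ {w}).card ≤ 1 := (card_le_card inter_subset_right).trans (by simp)
  have hpp : ∑ _α : Fin p, (3 * p + 1) = 3 * p ^ 2 + p := by
    simp
    ring
  have hS : ∑ α : Fin p, (cl G lab R w α).card ≤ 3 * p ^ 2 + p := by
    rw [← hpp]
    exact sum_le_sum (fun α _ => hle α)
  by_cases hsmall : D.card = 0
  · omega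
  · obtain ⟨r0, hr0⟩ : D.Nonempty := card_pos.1 (by omega)
    obtain ⟨hr1, hr2, hr3⟩ := mem_filter.1 hr0
    by_cases hall : ∀ α : Fin p, (cl G lab R w α).card = 3 * p + 1
    · exact (oneFar_final hG hR hp w r0 hr1 hr2 hr3 hall).elim
    · push Not at hall
      obtain ⟨α, hα⟩ := hall
      have hlt : ∑ α : Fin p, (cl G lab R w α).card < ∑ _α : Fin p, (3 * p + 1) :=
        sum_lt_sum (fun α _ => hle α) ⟨α, mem_univ _, lt_of_le_of_ne (hle α) hα⟩
      rw [hpp] at hlt
      omega

end Pool.Agent.TH246.RC
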