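import Pool.Agent.TH246.RC.Far

set_option autoImplicit false

namespace Pool.Agent.TH246.RC

open Finset

variable {V : Type} [Fintype V] {G : SimpleGraph V} {p : ℕ} {lab : V → V → Fin p} {R : Finset V}

omit [Fintype V] in
theorem twoFar_one {a r : V} (h : G.Adj a r) :
    ∃ q : G.Walk a r, ∀ v ∈ q.support, v = a ∨ v ∈ ({r} : Set V) := by
  refine ⟨SimpleGraph.Walk.cons h SimpleGraph.Walk.nil, ?_⟩
  intro v hv
  simp only [SimpleGraph.Walk.support_cons, SimpleGraph.Walk.support_nil, List.mem_cons,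
    List.not_mem_nil, or_false] at hv
  rcases hv with hv | hv
  · exact Or.inl hv
  · exact Or.inr hv

omit [Fintype V] in
theorem twoFar_four {x a w b y : V} (h1 : G.Adj x a) (h2 : G.Adj w a) (h3 : G.Adj w b)
    (h4 : G.Adj y b) (Y : Set V) (ha : a ∈ Y) (hw : w ∈ Y) (hb : b ∈ Y) :
    ∃ q : G.Walk x y, ∀ v ∈ q.support, v = x ∨ v = y ∨ v ∈ Y := by
  refine ⟨SimpleGraph.Walk.cons h1 (SimpleGraph.Walk.cons h2.symm
    (SimpleGraph.Walk.cons h3 (SimpleGraph.Walk.cons h4.symm SimpleGraph.Walk.nil))), ?_⟩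
  intro v hv
  simp only [SimpleGraph.Walk.support_cons, SimpleGraph.Walk.support_nil, List.mem_cons,
    List.not_mem_nil, or_false] at hv
  rcases hv with hv | hv | hv | hv | hv
  · exact Or.inl hv
  · exact Or.inr (Or.inr (hv ▸ ha))
  · exact Or.inr (Or.inr (hv ▸ hw))
  · exact Or.inr (Or.inr (hv ▸ hb))
  · exact Or.inr (Or.inl hv)

/-- with six hubs at most one element of `R` is not adjacent to `w` -/
theorem twoFar (hG : NoWeak G) (hR : RelCl G lab R) (w : V) (X : Finset V) (hX : 6 ≤ X.card)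
    (hwX : w ∉ X) (hb : ∀ x ∈ X, 8 ≤ (cb G R w x).card) {r s : V} (hr : r ∈ R) (hs : s ∈ R)
    (hrw : ¬ G.Adj w r) (hsw : ¬ G.Adj w s) (nrw : r ≠ w) (nsw : s ≠ w) : r = s := by
  classical
  by_contra hne
  set S : Finset V := (X.erase r).erase s with hS
  have hScard : 4 ≤ S.card := by
    have h1 : X.card - 1 ≤ (X.erase r).card := Finset.pred_card_le_card_erase
    have h2 : (X.erase r).card - 1 ≤ ((X.erase r).erase s).card :=
      Finset.pred_card_le_card_erase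
    rw [hS]
    omega
  have hSm : ∀ x ∈ S, x ∈ X ∧ x ≠ r ∧ x ≠ s := by
    intro x hx
    rw [hS, Finset.mem_erase, Finset.mem_erase] at hx
    exact ⟨hx.2.2, hx.2.1, hx.1⟩
  obtain ⟨x4, hx4⟩ : S.Nonempty := Finset.card_pos.1 (by omega)
  have hS'card : 2 < (S.erase x4).card := by
    rw [Finset.card_erase_of_mem hx4]
    omega
  obtain ⟨x1, m1, x2, m2, x3, m3, n12, n13, n23⟩ := Finset.two_lt_card.1 hS'card
  rw [Finset.mem_erase] at m1 m2 m3
  obtain ⟨n14, m1⟩ := m1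
  obtain ⟨n24, m2⟩ := m2
  obtain ⟨n34, m3⟩ := m3
  -- adjacency to r and s
  have hadj : ∀ x ∈ S, G.Adj x r ∧ G.Adj x s := by
    intro x hx
    obtain ⟨hxX, hxr, hxs⟩ := hSm x hx
    have hwx : w ≠ x := fun h => hwX (h ▸ hxX)
    have h8 := hb x hxX
    exact ⟨(far hG hR hwx (by omega) hr hrw nrw (Ne.symm hxr)).1,
      (far hG hR hwx (by omega) hs hsw nsw (Ne.symm hxs)).1⟩
  have hch : ∀ x ∈ S, ∃ a, G.Adj w a ∧ G.Adj x a ∧ a ≠ x1 ∧ a ≠ x2 ∧ a ≠ x3 ∧ a ≠ x4 := by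
    intro x hx
    obtain ⟨hxX, -, -⟩ := hSm x hx
    have h8 := hb x hxX
    have h4 : ({x1, x2, x3, x4} : Finset V).card < (cb G R w x).card := by
      have : ({x1, x2, x3, x4} : Finset V).card ≤ 4 := Finset.card_le_four
      omega
    obtain ⟨a, ha, hna⟩ := Finset.exists_mem_notMem_of_card_lt_card h4
    rw [mem_cb] at ha
    simp only [Finset.mem_insert, Finset.mem_singleton, not_or] at hna
    exact ⟨a, ha.2.1, ha.2.2, hna.1, hna.2.1, hna.2.2.1, hna.2.2.2⟩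
  obtain ⟨a1, wa1, xa1, h11, h12, h13, h14⟩ := hch x1 m1
  obtain ⟨a2, wa2, xa2, h21, h22, h23, h24⟩ := hch x2 m2
  obtain ⟨a3, wa3, xa3, h31, h32, h33, h34⟩ := hch x3 m3
  obtain ⟨x1X, x1r, x1s⟩ := hSm x1 m1
  obtain ⟨x2X, x2r, x2s⟩ := hSm x2 m2
  obtain ⟨x3X, x3r, x3s⟩ := hSm x3 m3
  obtain ⟨x4X, x4r, x4s⟩ := hSm x4 hx4
  have w1 : w ≠ x1 := fun h => hwX (h ▸ x1X)
  have w2 : w ≠ x2 := fun h => hwX (h ▸ x2X)
  have w3 : w ≠ x3 := fun h => hwX (h ▸ x3X)
  have w4 : w ≠ x4 := fun h => hwX (h ▸ x4X)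
  have ar : ∀ a, G.Adj w a → a ≠ r := fun a ha h => hrw (h ▸ ha)
  have as : ∀ a, G.Adj w a → a ≠ s := fun a ha h => hsw (h ▸ ha)
  set Y : Set V := {w, a1, a2, a3} with hY
  have Yw : w ∈ Y := by simp [hY]
  have Y1 : a1 ∈ Y := by simp [hY]
  have Y2 : a2 ∈ Y := by simp [hY]
  have Y3 : a3 ∈ Y := by simp [hY]
  have hYm : ∀ v ∈ Y, v = w ∨ v = a1 ∨ v = a2 ∨ v = a3 := by
    intro v hv
    simpa [hY] using hv
  have dY : Disjoint Y ({r} ∪ {s} ∪ {x4} : Set V) := by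
    rw [Set.disjoint_left]
    intro v hv hv'
    simp only [Set.mem_union, Set.mem_singleton_iff] at hv'
    rcases hYm v hv with h | h | h | h <;> rcases hv' with (h' | h') | h' <;>
      rw [h] at h'
    · exact nrw h'.symm
    · exact nsw h'.symm
    · exact w4 h'
    · exact ar a1 wa1 h'
    · exact as a1 wa1 h'
    · exact h14 h'
    · exact ar a2 wa2 h'
    · exact as a2 wa2 h'
    · exact h24 h'
    · exact ar a3 wa3 h'
    · exact as a3 wa3 h'
    · exact h34 h'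
  have hx1Y : x1 ∉ Y := by
    intro h
    rcases hYm x1 h with h | h | h | h
    · exact w1 h.symm
    · exact h11 h.symm
    · exact h21 h.symm
    · exact h31 h.symm
  have hx2Y : x2 ∉ Y := by
    intro h
    rcases hYm x2 h with h | h | h | h
    · exact w2 h.symm
    · exact h12 h.symm
    · exact h22 h.symm
    · exact h32 h.symm
  have hx3Y : x3 ∉ Y := by
    intro h
    rcases hYm x3 h with h | h | h | h
    · exact w3 h.symm
    · exact h13 h.symm
    · exact h23 h.symm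
    · exact h33 h.symm
  have hwx : ∃ q : G.Walk r s, ∀ v ∈ q.support,
      v ∈ ({r} : Set V) ∨ v ∈ ({s} : Set V) ∨ v ∈ ({x4} : Set V) := by
    refine ⟨SimpleGraph.Walk.cons (hadj x4 hx4).1.symm
      (SimpleGraph.Walk.cons (hadj x4 hx4).2 SimpleGraph.Walk.nil), ?_⟩
    intro v hv
    simp only [SimpleGraph.Walk.support_cons, SimpleGraph.Walk.support_nil, List.mem_cons,
      List.not_mem_nil, or_false] at hv
    rcases hv with hv | hv | hv
    · exact Or.inl hv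
    · exact Or.inr (Or.inr hv)
    · exact Or.inr (Or.inl hv)
  exact theta hG ({r} : Set V) ({s} : Set V) ({x4} : Set V) Y Y Y r s x1 x2 x3
    (twoFar_one (hadj x1 m1).1) (twoFar_one (hadj x2 m2).1) (twoFar_one (hadj x3 m3).1)
    (twoFar_one (hadj x1 m1).2) (twoFar_one (hadj x2 m2).2) (twoFar_one (hadj x3 m3).2)
    hwx (twoFar_four xa1 wa1 wa2 xa2 Y Y1 Yw Y2) (twoFar_four xa2 wa2 wa3 xa3 Y Y2 Yw Y3)
    (twoFar_four xa1 wa1 wa3 xa3 Y Y1 Yw Y3) n12 n23 n13
    (by simpa using hne)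
    (by simpa using x1r) (by simpa using x1s) (by simpa using n14)
    (by simpa using x2r) (by simpa using x2s) (by simpa using n24)
    (by simpa using x3r) (by simpa using x3s) (by simpa using n34)
    hx3Y hx1Y hx2Y dY dY dY

end Pool.Agent.TH246.RC
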