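import Pool.Agent.TH246.RC.TwoHubs
import Pool.Agent.TH246.RC.OneFar
import Pool.Agent.TH246.RC.TwoFar

set_option autoImplicit false

namespace Pool.Agent.TH246.RC

open Finset

variable {V : Type} [Fintype V] {G : SimpleGraph V} {p : ℕ} {lab : V → V → Fin p} {R : Finset V}

omit [Fintype V] in
/-- the classes of the neighbours of `w` -/
theorem core_sum_cl (w : V) : (nb G R w).card = ∑ α : Fin p, (cl G lab R w α).card := by
  classical
  rw [Finset.card_eq_sum_card_fiberwise (f := fun r => lab w r) (t := univ)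
    (fun _ _ => Finset.mem_coe.2 (Finset.mem_univ _))]
  refine Finset.sum_congr rfl fun α _ => ?_
  congr 1
  ext r
  rw [Finset.mem_filter, mem_nb, mem_cl, and_assoc]

omit [Fintype V] in
/-- classes with the same hub `x` -/
theorem core_fiber (w x : V) (T : Finset (Fin p))
    (h : ∀ α ∈ T, ∀ s ∈ cl G lab R w α, s = x ∨ G.Adj x s) :
    ∑ α ∈ T, (cl G lab R w α).card ≤ (cb G R w x).card + 1 := by
  classical
  rw [← Finset.card_biUnion]
  · refine (Finset.card_le_card (t := insert x (cb G R w x)) ?_).trans (Finset.card_insert_le _ _)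
    intro s hs
    obtain ⟨α, hα, hs⟩ := Finset.mem_biUnion.1 hs
    rcases h α hα s hs with h1 | h1
    · exact Finset.mem_insert.2 (Or.inl h1)
    · have h2 := mem_cl.1 hs
      exact Finset.mem_insert_of_mem (mem_cb.2 ⟨h2.1, h2.2.1, h1⟩)
  · intro α _ β _ hαβ
    rw [Function.onFun, Finset.disjoint_left]
    intro s h1 h2
    exact hαβ ((mem_cl.1 h1).2.2.symm.trans (mem_cl.1 h2).2.2)

/-- relative cliques have at most `3 p ^ 2 + p + 1` vertices -/
theorem card_le (hG : NoWeak G) (hR : RelCl G lab R) (hp : 20000 ≤ p) :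
    R.card ≤ 3 * p ^ 2 + p + 1 := by
  classical
  rcases R.eq_empty_or_nonempty with hR0 | ⟨r0, hr0⟩
  · rw [hR0]; simp
  have : Nonempty V := ⟨r0⟩
  obtain ⟨w, hw⟩ := Finite.exists_max (fun y : V => (nb G R y).card)
  have hhub : R.card ≤ 28 * (nb G R w).card + 15 := by
    refine hub hG ∅ R ?_ _ (fun y _ => hw y)
    intro r hr s hs hrs
    rcases hR r hr s hs hrs with h | ⟨y, h1, h2, -⟩
    · exact Or.inl h
    · exact Or.inr ⟨y, Set.notMem_empty y, h1, h2⟩
  by_cases hD : 10 * (nb G R w).card < p ^ 2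
  · omega
  push Not at hD
  have hex : ∀ α : Fin p, ∃ x, 200 ≤ (cl G lab R w α).card →
      x ≠ w ∧ ∀ s ∈ cl G lab R w α, s = x ∨ G.Adj x s := by
    intro α
    by_cases h : 200 ≤ (cl G lab R w α).card
    · obtain ⟨x, h1, h2, -⟩ := outer hG hR h
      exact ⟨x, fun _ => ⟨h1, h2⟩⟩
    · exact ⟨w, fun h' => absurd h' h⟩
  choose f hf using hex
  set L : Finset (Fin p) := univ.filter (fun α => 200 ≤ (cl G lab R w α).card) with hL
  have hmemL : ∀ α, α ∈ L ↔ 200 ≤ (cl G lab R w α).card := fun α => by simp [hL]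
  have hsum : (nb G R w).card ≤ ∑ α ∈ L, (cl G lab R w α).card + 199 * p := by
    rw [core_sum_cl (lab := lab) w, ← Finset.sum_filter_add_sum_filter_not univ
      (fun α : Fin p => 200 ≤ (cl G lab R w α).card)]
    refine Nat.add_le_add_left ?_ _
    have h1 : ∀ α ∈ univ.filter (fun α : Fin p => ¬ 200 ≤ (cl G lab R w α).card),
        (cl G lab R w α).card ≤ 199 := by
      intro α hα
      have := (Finset.mem_filter.1 hα).2
      omega
    refine (Finset.sum_le_sum h1).trans ?_
    rw [Finset.sum_const, smul_eq_mul, mul_comm]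
    refine Nat.mul_le_mul_left _ ?_
    exact (Finset.card_le_univ _).trans (by simp)
  have hcb : ∀ α ∈ L, 199 ≤ (cb G R w (f α)).card := by
    intro α hα
    have h1 := (hmemL α).1 hα
    have h2 := core_fiber (G := G) (R := R) (lab := lab) w (f α) {α} (by
      intro β hβ
      rw [Finset.mem_singleton.1 hβ]
      exact (hf α h1).2)
    rw [Finset.sum_singleton] at h2
    omega
  by_cases h6 : 6 ≤ (L.image f).card
  · refine oneFar hG hR (by omega) w ?_
    intro r hr s hs hrw hsw nrw nsw
    refine twoFar hG hR w (L.image f) h6 ?_ ?_ hr hs hrw hsw nrw nsw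
    · intro h
      obtain ⟨α, hα, h1⟩ := Finset.mem_image.1 h
      exact (hf α ((hmemL α).1 hα)).1 h1
    · intro x hx
      obtain ⟨α, hα, rfl⟩ := Finset.mem_image.1 hx
      exact le_trans (by norm_num) (hcb α hα)
  · push Not at h6
    by_cases h60 : ∃ α ∈ L, p ^ 2 ≤ 60 * (cb G R w (f α)).card
    · obtain ⟨α, hα, h1⟩ := h60
      exact twoHubs hG hR hp (hf α ((hmemL α).1 hα)).1.symm h1
    · exfalso
      push Not at h60
      have h1 : ∑ α ∈ L, (cl G lab R w α).card =
          ∑ x ∈ L.image f, ∑ α ∈ L with f α = x, (cl G lab R w α).card :=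
        (Finset.sum_fiberwise_of_maps_to (fun α hα => Finset.mem_image_of_mem f hα) _).symm
      have h2 : ∀ x ∈ L.image f, 60 * ∑ α ∈ L with f α = x, (cl G lab R w α).card ≤
          p ^ 2 + 59 := by
        intro x hx
        have h3 := core_fiber (G := G) (R := R) (lab := lab) w x (L.filter (fun α => f α = x)) (by
          intro α hα
          obtain ⟨h4, h5⟩ := Finset.mem_filter.1 hα
          rw [← h5]
          exact (hf α ((hmemL α).1 h4)).2)
        obtain ⟨β, hβ, h7⟩ := Finset.mem_image.1 hx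
        have h8 := h60 β hβ
        rw [h7] at h8
        omega
      have h3 : 60 * ∑ α ∈ L, (cl G lab R w α).card ≤ 5 * (p ^ 2 + 59) := by
        rw [h1, Finset.mul_sum]
        refine (Finset.sum_le_sum h2).trans ?_
        rw [Finset.sum_const, smul_eq_mul]
        exact Nat.mul_le_mul_right _ (by omega)
      nlinarith

end Pool.Agent.TH246.RC
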