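import Mathlib

/-!
# Relative cliques in planar coloured mixed graphs: definitions

`G` is the underlying simple graph, `lab w u` the label of the neighbour `u` of `w`.
-/

set_option autoImplicit false

namespace Pool.Agent.TH246.RC

open Finset

/-- Planarity in the form used here: there is no system of walks joining five vertices pairwise
such that the walks of disjoint pairs run in disjoint sets of vertices. -/
def NoWeak {V : Type} (G : SimpleGraph V) : Prop :=
  ∀ (p : Fin 5 → V) (X : Fin 5 → Fin 5 → Set V),
    (∀ a b, a < b → ∃ W : G.Walk (p a) (p b), ∀ v ∈ W.support, v ∈ X a b) →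
    (∀ a b c d, a < b → c < d → a ≠ c → a ≠ d → b ≠ c → b ≠ d → Disjoint (X a b) (X c d)) →
    False

/-- `s` and `a` are adjacent or have a common neighbour outside `Z` -/
def Lnk {V : Type} (G : SimpleGraph V) (Z : Set V) (s a : V) : Prop :=
  G.Adj s a ∨ ∃ y, y ∉ Z ∧ G.Adj y s ∧ G.Adj y a

/-- `R` is a relative clique: any two vertices of `R` are adjacent or joined by a special path -/
def RelCl {V : Type} (G : SimpleGraph V) {p : ℕ} (lab : V → V → Fin p) (R : Finset V) : Prop :=
  ∀ r ∈ R, ∀ s ∈ R, r ≠ s → G.Adj r s ∨ ∃ y, G.Adj y r ∧ G.Adj y s ∧ lab y r ≠ lab y s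

/-- common neighbours -/
noncomputable def cn {V : Type} [Fintype V] (G : SimpleGraph V) (w x : V) : Finset V := by
  classical exact univ.filter (fun c => G.Adj w c ∧ G.Adj x c)

/-- the elements of `R` adjacent to `w` -/
noncomputable def nb {V : Type} (G : SimpleGraph V) (R : Finset V) (w : V) : Finset V := by
  classical exact R.filter (fun r => G.Adj w r)

/-- the elements of `R` adjacent to `w` with label `α` -/
noncomputable def cl {V : Type} (G : SimpleGraph V) {p : ℕ} (lab : V → V → Fin p) (R : Finset V)
    (w : V) (α : Fin p) : Finset V := by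
  classical exact R.filter (fun r => G.Adj w r ∧ lab w r = α)

/-- the elements of `R` adjacent to both `w` and `x` -/
noncomputable def cb {V : Type} (G : SimpleGraph V) (R : Finset V) (w x : V) : Finset V := by
  classical exact R.filter (fun r => G.Adj w r ∧ G.Adj x r)

theorem mem_cn {V : Type} [Fintype V] {G : SimpleGraph V} {w x c : V} :
    c ∈ cn G w x ↔ G.Adj w c ∧ G.Adj x c := by
  classical
  simp [cn]

theorem mem_nb {V : Type} {G : SimpleGraph V} {R : Finset V} {w r : V} :
    r ∈ nb G R w ↔ r ∈ R ∧ G.Adj w r := by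
  classical
  simp [nb]

theorem mem_cl {V : Type} {G : SimpleGraph V} {p : ℕ} {lab : V → V → Fin p} {R : Finset V}
    {w r : V} {α : Fin p} : r ∈ cl G lab R w α ↔ r ∈ R ∧ G.Adj w r ∧ lab w r = α := by
  classical
  simp [cl]

theorem mem_cb {V : Type} {G : SimpleGraph V} {R : Finset V} {w x r : V} :
    r ∈ cb G R w x ↔ r ∈ R ∧ G.Adj w r ∧ G.Adj x r := by
  classical
  simp [cb]

end Pool.Agent.TH246.RC
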