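import Pool.Agent.TH246.RC.Six

set_option autoImplicit false

namespace Pool.Agent.TH246.RC

open Finset

variable {V : Type} [Fintype V] {G : SimpleGraph V} {p : ℕ} {lab : V → V → Fin p} {R : Finset V}

/-- an element `r` of `R` not adjacent to `w` is adjacent to every hub `x`, and its label there is
used by at most six common neighbours in `R` -/
theorem far (hG : NoWeak G) (hR : RelCl G lab R) {w x r : V} (hwx : w ≠ x)
    (h7 : 7 ≤ (cb G R w x).card) (hr : r ∈ R) (hrw : ¬ G.Adj w r) (nrw : r ≠ w) (nrx : r ≠ x) :
    G.Adj x r ∧ ((cb G R w x).filter (fun a => lab x a = lab x r)).card ≤ 6 := by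
  have hadj : ∀ a ∈ cb G R w x, G.Adj w a ∧ G.Adj x a := fun a ha => (mem_cb.1 ha).2
  have hrA : r ∉ cb G R w x := fun h => hrw (hadj r h).1
  -- a middle vertex is different from `w`, and from `x` unless the labels at `x` differ
  have key : ∀ a ∈ cb G R w x, (G.Adj x r → lab x r = lab x a) → Lnk G {w, x} r a := by
    intro a ha hlab
    have hne : r ≠ a := fun h => hrA (h ▸ ha)
    rcases hR r hr a (mem_cb.1 ha).1 hne with h | ⟨y, hyr, hya, hy⟩
    · exact Or.inl h
    · refine Or.inr ⟨y, ?_, hyr, hya⟩
      rintro (h | h)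
      · exact hrw (h ▸ hyr)
      · have h' : y = x := h
        subst h'
        exact hy (hlab hyr)
  have hx : G.Adj x r := by
    by_contra hcon
    have h6 := six hG hwx nrw nrx (cb G R w x) hadj hrA
      (fun a ha => key a ha (fun h => absurd h hcon))
    omega
  refine ⟨hx, ?_⟩
  apply six hG hwx nrw nrx
  · intro a ha
    exact hadj a (Finset.mem_filter.1 ha).1
  · intro h
    exact hrA (Finset.mem_filter.1 h).1
  · intro a ha
    have h := Finset.mem_filter.1 ha
    exact key a h.1 (fun _ => h.2.symm)

end Pool.Agent.TH246.RC
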