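import Pool.Agent.TH246.RC.Theta

set_option autoImplicit false

namespace Pool.Agent.TH246.RC

open Finset

variable {V : Type} [Fintype V] {G : SimpleGraph V}

/-- the common neighbours of `w` and `x` linked to `t` without a middle vertex in `cn G w x` -/
noncomputable def sixD (G : SimpleGraph V) (w x t : V) : Finset V := by
  classical exact (cn G w x).filter (fun a => a ≠ t ∧
    (G.Adj t a ∨ ∃ y, y ∉ cn G w x ∧ y ≠ w ∧ y ≠ x ∧ G.Adj y t ∧ G.Adj y a))

theorem six_mem {w x t a : V} : a ∈ sixD G w x t ↔ a ∈ cn G w x ∧ a ≠ t ∧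
    (G.Adj t a ∨ ∃ y, y ∉ cn G w x ∧ y ≠ w ∧ y ≠ x ∧ G.Adj y t ∧ G.Adj y a) := by
  classical
  simp [sixD]

theorem six_walk {w x t a : V} (ha : a ∈ sixD G w x t) :
    ∃ p : G.Walk a t, ∀ v ∈ p.support,
      v = a ∨ v ∈ (insert t {y | y ∉ cn G w x ∧ y ≠ w ∧ y ≠ x} : Set V) := by
  rw [six_mem] at ha
  obtain ⟨-, -, h | ⟨y, h1, h2, h3, h4, h5⟩⟩ := ha
  · refine ⟨SimpleGraph.Walk.cons h.symm SimpleGraph.Walk.nil, ?_⟩
    intro v hv
    simp only [SimpleGraph.Walk.support_cons, SimpleGraph.Walk.support_nil, List.mem_cons,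
      List.not_mem_nil, or_false] at hv
    rcases hv with rfl | rfl
    · exact Or.inl rfl
    · exact Or.inr (Set.mem_insert _ _)
  · refine ⟨SimpleGraph.Walk.cons h5.symm (SimpleGraph.Walk.cons h4 SimpleGraph.Walk.nil), ?_⟩
    intro v hv
    simp only [SimpleGraph.Walk.support_cons, SimpleGraph.Walk.support_nil, List.mem_cons,
      List.not_mem_nil, or_false] at hv
    rcases hv with rfl | rfl | rfl
    · exact Or.inl rfl
    · exact Or.inr (Set.mem_insert_of_mem _ ⟨h1, h2, h3⟩)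
    · exact Or.inr (Set.mem_insert _ _)

theorem six_walk2 {w x t a b : V} (ha : a ∈ sixD G w x t) (hb : b ∈ sixD G w x t) :
    ∃ p : G.Walk a b, ∀ v ∈ p.support,
      v = a ∨ v = b ∨ v ∈ (insert t {y | y ∉ cn G w x ∧ y ≠ w ∧ y ≠ x} : Set V) := by
  obtain ⟨p, hp⟩ := six_walk ha
  obtain ⟨q, hq⟩ := six_walk hb
  refine ⟨p.append q.reverse, ?_⟩
  intro v hv
  rw [SimpleGraph.Walk.mem_support_append_iff, SimpleGraph.Walk.support_reverse,
    List.mem_reverse] at hv
  rcases hv with hv | hv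
  · rcases hp v hv with h | h
    · exact Or.inl h
    · exact Or.inr (Or.inr h)
  · rcases hq v hv with h | h
    · exact Or.inr (Or.inl h)
    · exact Or.inr (Or.inr h)

omit [Fintype V] in
theorem six_edge {a b : V} (h : G.Adj a b) :
    ∃ p : G.Walk a b, ∀ v ∈ p.support, v = a ∨ v ∈ ({b} : Set V) := by
  refine ⟨SimpleGraph.Walk.cons h SimpleGraph.Walk.nil, ?_⟩
  intro v hv
  simp only [SimpleGraph.Walk.support_cons, SimpleGraph.Walk.support_nil, List.mem_cons,
    List.not_mem_nil, or_false] at hv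
  rcases hv with rfl | rfl
  · exact Or.inl rfl
  · exact Or.inr rfl

theorem six_claim (hG : NoWeak G) {w x t : V} (hwx : w ≠ x) (htw : t ≠ w) (htx : t ≠ x)
    (hC : 5 ≤ (cn G w x).card) : (sixD G w x t).card ≤ 2 := by
  classical
  by_contra hcon
  push Not at hcon
  obtain ⟨a, ha, b, hb, c, hc, hab, hac, hbc⟩ := Finset.two_lt_card.mp hcon
  obtain ⟨c0, hc0, hc0'⟩ : ∃ c0 ∈ cn G w x, c0 ∉ ({a, b, c, t} : Finset V) := by
    by_contra h
    push Not at h
    have h1 : (cn G w x).card ≤ ({a, b, c, t} : Finset V).card := Finset.card_le_card h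
    have h2 : ({a, b, c, t} : Finset V).card ≤ 4 := Finset.card_le_four
    omega
  simp only [Finset.mem_insert, Finset.mem_singleton, not_or] at hc0'
  obtain ⟨hca, hcb, hcc, hct⟩ := hc0'
  have ha' := six_mem.mp ha
  have hb' := six_mem.mp hb
  have hc' := six_mem.mp hc
  have ma := mem_cn.mp ha'.1
  have mb := mem_cn.mp hb'.1
  have mc := mem_cn.mp hc'.1
  have m0 := mem_cn.mp hc0
  have hY : ∀ e : V, e ∈ cn G w x → e ≠ t →
      e ∉ (insert t {y | y ∉ cn G w x ∧ y ≠ w ∧ y ≠ x} : Set V) := by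
    intro e he het hmem
    rcases Set.mem_insert_iff.mp hmem with h | h
    · exact het h
    · exact h.1 he
  have hd : Disjoint (insert t {y | y ∉ cn G w x ∧ y ≠ w ∧ y ≠ x} : Set V)
      (({w} : Set V) ∪ {x} ∪ {c0}) := by
    rw [Set.disjoint_left]
    intro e he1 he2
    rcases he2 with (he2 | he2) | he2
    · rw [Set.mem_singleton_iff.mp he2] at he1
      rcases Set.mem_insert_iff.mp he1 with h | h
      · exact htw h.symm
      · exact h.2.1 rfl
    · rw [Set.mem_singleton_iff.mp he2] at he1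
      rcases Set.mem_insert_iff.mp he1 with h | h
      · exact htx h.symm
      · exact h.2.2 rfl
    · rw [Set.mem_singleton_iff.mp he2] at he1
      exact hY c0 hc0 hct he1
  refine theta hG {w} {x} {c0} _ _ _ w x a b c (six_edge ma.1.symm) (six_edge mb.1.symm)
    (six_edge mc.1.symm) (six_edge ma.2.symm) (six_edge mb.2.symm) (six_edge mc.2.symm)
    ?_ (six_walk2 ha hb) (six_walk2 hb hc) (six_walk2 ha hc) hab hbc hac ?_
    (fun h => ma.1.ne' h) (fun h => ma.2.ne' h) (fun h => hca h.symm)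
    (fun h => mb.1.ne' h) (fun h => mb.2.ne' h) (fun h => hcb h.symm)
    (fun h => mc.1.ne' h) (fun h => mc.2.ne' h) (fun h => hcc h.symm)
    (hY c hc'.1 hc'.2.1) (hY a ha'.1 ha'.2.1) (hY b hb'.1 hb'.2.1) hd hd hd
  · refine ⟨SimpleGraph.Walk.cons m0.1 (SimpleGraph.Walk.cons m0.2.symm SimpleGraph.Walk.nil), ?_⟩
    intro v hv
    simp only [SimpleGraph.Walk.support_cons, SimpleGraph.Walk.support_nil, List.mem_cons,
      List.not_mem_nil, or_false] at hv
    rcases hv with rfl | rfl | rfl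
    · exact Or.inl rfl
    · exact Or.inr (Or.inr rfl)
    · exact Or.inr (Or.inl rfl)
  · rw [Set.disjoint_singleton]
    exact hwx

/-- a vertex is linked, avoiding `w` and `x`, to at most six common neighbours of `w` and `x` -/
theorem six (hG : NoWeak G) {w x s : V} (hwx : w ≠ x) (hsw : s ≠ w) (hsx : s ≠ x) (A : Finset V)
    (hA : ∀ a ∈ A, G.Adj w a ∧ G.Adj x a) (hsA : s ∉ A)
    (hl : ∀ a ∈ A, Lnk G {w, x} s a) : A.card ≤ 6 := by
  classical
  rcases Nat.lt_or_ge (cn G w x).card 5 with hC | hC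
  · have h1 : A ⊆ cn G w x := fun a ha => mem_cn.mpr (hA a ha)
    have h2 := Finset.card_le_card h1
    omega
  have hsub : A ⊆ sixD G w x s ∪ (sixD G w x s).biUnion (fun y => sixD G w x y) := by
    intro a ha
    have hac : a ∈ cn G w x := mem_cn.mpr (hA a ha)
    have has : a ≠ s := fun h => hsA (h ▸ ha)
    rw [Finset.mem_union, Finset.mem_biUnion]
    rcases hl a ha with h | ⟨y, h1, h2, h3⟩
    · exact Or.inl (six_mem.mpr ⟨hac, has, Or.inl h⟩)
    · have hyw : y ≠ w := fun h => h1 (by rw [h]; exact Set.mem_insert _ _)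
      have hyx : y ≠ x := fun h => h1 (by rw [h]; exact Set.mem_insert_of_mem _ rfl)
      by_cases hy : y ∈ cn G w x
      · refine Or.inr ⟨y, six_mem.mpr ⟨hy, h2.ne, Or.inl h2.symm⟩,
          six_mem.mpr ⟨hac, h3.ne', Or.inl h3⟩⟩
      · exact Or.inl (six_mem.mpr ⟨hac, has, Or.inr ⟨y, hy, hyw, hyx, h2, h3⟩⟩)
  have h1 := six_claim hG hwx hsw hsx hC
  have h2 : ∀ y ∈ sixD G w x s, (sixD G w x y).card ≤ 2 := by
    intro y hy
    have hy' := mem_cn.mp (six_mem.mp hy).1
    exact six_claim hG hwx hy'.1.ne' hy'.2.ne' hC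
  have h3 : ((sixD G w x s).biUnion (fun y => sixD G w x y)).card ≤ (sixD G w x s).card * 2 :=
    Finset.card_biUnion_le_card_mul _ _ _ h2
  have h4 := Finset.card_le_card hsub
  have h5 := Finset.card_union_le (sixD G w x s) ((sixD G w x s).biUnion (fun y => sixD G w x y))
  omega

end Pool.Agent.TH246.RC
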