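import Pool.Agent.TH246.RC.Outer
import Pool.Agent.TH246.RC.Far

/-!
# The parts of a relative clique with respect to two hubs
-/

set_option autoImplicit false

namespace Pool.Agent.TH246.RC

open Finset

variable {V : Type} [Fintype V] {G : SimpleGraph V} {p : ℕ} {lab : V → V → Fin p} {R : Finset V}

/-- the labels at `w` used by at most six common neighbours of `w` and `x` in `R` -/
noncomputable def rare (G : SimpleGraph V) {p : ℕ} (lab : V → V → Fin p) (R : Finset V)
    (w x : V) : Finset (Fin p) := by
  classical exact univ.filter (fun α => ((cb G R w x).filter (fun r => lab w r = α)).card ≤ 6)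

/-- the rare labels with a large class -/
noncomputable def big (G : SimpleGraph V) {p : ℕ} (lab : V → V → Fin p) (R : Finset V)
    (w x : V) : Finset (Fin p) := by
  classical exact (rare G lab R w x).filter (fun α => 200 ≤ (cl G lab R w α).card)

/-- the elements with a rare label at `w` -/
noncomputable def side (G : SimpleGraph V) {p : ℕ} (lab : V → V → Fin p) (R : Finset V)
    (w x : V) : Finset V := by
  classical exact R.filter (fun r => G.Adj w r ∧ r ≠ x ∧ lab w r ∈ rare G lab R w x)

/-- the common neighbours in `R` whose labels at `w` and `x` are not rare -/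
noncomputable def core (G : SimpleGraph V) {p : ℕ} (lab : V → V → Fin p) (R : Finset V)
    (w x : V) : Finset V := by
  classical exact (cb G R w x).filter (fun r => lab w r ∉ rare G lab R w x ∧
    lab x r ∉ rare G lab R x w)

theorem split_cb_comm (w x : V) : cb G R w x = cb G R x w := by
  ext r
  rw [mem_cb, mem_cb]
  tauto

theorem split_mem_rare {w x : V} {α : Fin p} : α ∈ rare G lab R w x ↔
    ((cb G R w x).filter (fun r => lab w r = α)).card ≤ 6 := by
  classical
  unfold rare
  simp only [Finset.mem_filter, Finset.mem_univ, true_and]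

theorem split_mem_big {w x : V} {α : Fin p} : α ∈ big G lab R w x ↔
    α ∈ rare G lab R w x ∧ 200 ≤ (cl G lab R w α).card := by
  classical
  unfold big
  simp only [Finset.mem_filter]

theorem split_mem_side {w x r : V} : r ∈ side G lab R w x ↔
    r ∈ R ∧ G.Adj w r ∧ r ≠ x ∧ lab w r ∈ rare G lab R w x := by
  classical
  unfold side
  simp only [Finset.mem_filter]

theorem split_mem_core {w x r : V} : r ∈ core G lab R w x ↔
    r ∈ cb G R w x ∧ lab w r ∉ rare G lab R w x ∧ lab x r ∉ rare G lab R x w := by
  classical
  unfold core
  simp only [Finset.mem_filter]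

theorem card_core (hG : NoWeak G) (hR : RelCl G lab R) {w x : V} (hwx : w ≠ x)
    (h7 : 7 ≤ (cb G R w x).card) :
    (core G lab R w x).card ≤
      3 * (p - (rare G lab R w x).card) * (p - (rare G lab R x w).card) := by
  classical
  have hcn : 6 ≤ (cn G w x).card := by
    have h1 : cb G R w x ⊆ cn G w x := by
      intro r hr
      rw [mem_cb] at hr
      rw [mem_cn]
      exact hr.2
    have h2 := Finset.card_le_card h1
    omega
  have hsub : core G lab R w x ⊆
      ((univ \ rare G lab R w x) ×ˢ (univ \ rare G lab R x w)).biUnion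
        (fun q => (cb G R w x).filter (fun r => lab w r = q.1 ∧ lab x r = q.2)) := by
    intro r hr
    rw [split_mem_core] at hr
    rw [Finset.mem_biUnion]
    refine ⟨(lab w r, lab x r), ?_, ?_⟩
    · rw [Finset.mem_product, Finset.mem_sdiff, Finset.mem_sdiff]
      exact ⟨⟨Finset.mem_univ _, hr.2.1⟩, ⟨Finset.mem_univ _, hr.2.2⟩⟩
    · rw [Finset.mem_filter]
      exact ⟨hr.1, rfl, rfl⟩
  have h3 : ∀ q ∈ ((univ \ rare G lab R w x) ×ˢ (univ \ rare G lab R x w)),
      ((cb G R w x).filter (fun r => lab w r = q.1 ∧ lab x r = q.2)).card ≤ 3 := by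
    intro q _
    refine three hG hR hwx hcn _ ?_ ?_ ?_
    · intro s hs
      rw [Finset.mem_filter, mem_cb] at hs
      exact hs.1
    · intro s hs t ht
      rw [Finset.mem_filter] at hs ht
      rw [hs.2.1, ht.2.1]
    · intro s hs t ht
      rw [Finset.mem_filter] at hs ht
      rw [hs.2.2, ht.2.2]
  refine (Finset.card_le_card hsub).trans ((Finset.card_biUnion_le_card_mul _ _ 3 h3).trans ?_)
  rw [Finset.card_product, Finset.card_sdiff_of_subset (Finset.subset_univ _),
    Finset.card_sdiff_of_subset (Finset.subset_univ _), Finset.card_univ, Fintype.card_fin]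
  apply le_of_eq
  ring

theorem card_cb (w x : V) :
    (cb G R w x).card ≤ (core G lab R w x).card + 6 * (rare G lab R w x).card
      + 6 * (rare G lab R x w).card := by
  classical
  have hsub : cb G R w x ⊆ (core G lab R w x ∪
      (rare G lab R w x).biUnion (fun α => (cb G R w x).filter (fun r => lab w r = α))) ∪
      (rare G lab R x w).biUnion (fun α => (cb G R x w).filter (fun r => lab x r = α)) := by
    intro r hr
    rw [Finset.mem_union, Finset.mem_union, Finset.mem_biUnion, Finset.mem_biUnion]
    by_cases h1 : lab w r ∈ rare G lab R w x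
    · left
      right
      exact ⟨_, h1, Finset.mem_filter.2 ⟨hr, rfl⟩⟩
    by_cases h2 : lab x r ∈ rare G lab R x w
    · right
      exact ⟨_, h2, Finset.mem_filter.2 ⟨by rw [split_cb_comm]; exact hr, rfl⟩⟩
    · left
      left
      rw [split_mem_core]
      exact ⟨hr, h1, h2⟩
  have hb : ∀ w x : V, ((rare G lab R w x).biUnion
      (fun α => (cb G R w x).filter (fun r => lab w r = α))).card ≤ 6 * (rare G lab R w x).card := by
    intro w x
    refine (Finset.card_biUnion_le_card_mul _ _ 6 ?_).trans (le_of_eq (mul_comm _ _))
    intro α hα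
    exact split_mem_rare.1 hα
  have h3 := Finset.card_le_card hsub
  have h4 := Finset.card_union_le (core G lab R w x ∪
      (rare G lab R w x).biUnion (fun α => (cb G R w x).filter (fun r => lab w r = α)))
      ((rare G lab R x w).biUnion (fun α => (cb G R x w).filter (fun r => lab x r = α)))
  have h5 := Finset.card_union_le (core G lab R w x)
      ((rare G lab R w x).biUnion (fun α => (cb G R w x).filter (fun r => lab w r = α)))
  have h6 := hb w x
  have h7 := hb x w
  omega

theorem card_side_le (hG : NoWeak G) (hR : RelCl G lab R) (hp : 100 ≤ p) (w x : V) :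
    (side G lab R w x).card ≤ (big G lab R w x).card * (3 * p + 1)
      + 199 * ((rare G lab R w x).card - (big G lab R w x).card) := by
  classical
  have hbr : big G lab R w x ⊆ rare G lab R w x := fun α hα => (split_mem_big.1 hα).1
  have hsub : side G lab R w x ⊆ (big G lab R w x).biUnion (fun α => cl G lab R w α) ∪
      (rare G lab R w x \ big G lab R w x).biUnion (fun α => cl G lab R w α) := by
    intro r hr
    rw [split_mem_side] at hr
    obtain ⟨hrR, ha, -, hl⟩ := hr
    rw [Finset.mem_union, Finset.mem_biUnion, Finset.mem_biUnion]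
    by_cases h1 : lab w r ∈ big G lab R w x
    · left
      exact ⟨_, h1, mem_cl.2 ⟨hrR, ha, rfl⟩⟩
    · right
      exact ⟨_, Finset.mem_sdiff.2 ⟨hl, h1⟩, mem_cl.2 ⟨hrR, ha, rfl⟩⟩
  have h1 : ((big G lab R w x).biUnion (fun α => cl G lab R w α)).card ≤
      (big G lab R w x).card * (3 * p + 1) :=
    Finset.card_biUnion_le_card_mul _ _ _ fun α _ => outer_le hG hR hp w α
  have h2 : ((rare G lab R w x \ big G lab R w x).biUnion (fun α => cl G lab R w α)).card ≤
      (rare G lab R w x \ big G lab R w x).card * 199 := by
    refine Finset.card_biUnion_le_card_mul _ _ _ fun α hα => ?_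
    rw [Finset.mem_sdiff, split_mem_big] at hα
    have h3 : ¬ 200 ≤ (cl G lab R w α).card := fun h => hα.2 ⟨hα.1, h⟩
    omega
  rw [Finset.card_sdiff_of_subset hbr] at h2
  have h3 := Finset.card_le_card hsub
  have h4 := Finset.card_union_le ((big G lab R w x).biUnion (fun α => cl G lab R w α))
    ((rare G lab R w x \ big G lab R w x).biUnion (fun α => cl G lab R w α))
  rw [mul_comm] at h2
  omega

theorem card_le_split (hG : NoWeak G) (hR : RelCl G lab R) {w x : V} (hwx : w ≠ x)
    (h7 : 7 ≤ (cb G R w x).card) :
    R.card ≤ 2 + (core G lab R w x).card + (side G lab R w x).card + (side G lab R x w).card := by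
  classical
  have hsub : R ⊆ (({w, x} ∪ core G lab R w x) ∪ side G lab R w x) ∪ side G lab R x w := by
    intro r hr
    rw [Finset.mem_union, Finset.mem_union, Finset.mem_union, Finset.mem_insert,
      Finset.mem_singleton]
    by_cases hrw : r = w
    · exact Or.inl (Or.inl (Or.inl (Or.inl hrw)))
    by_cases hrx : r = x
    · exact Or.inl (Or.inl (Or.inl (Or.inr hrx)))
    by_cases haw : G.Adj w r
    · by_cases hax : G.Adj x r
      · by_cases h1 : lab w r ∈ rare G lab R w x
        · left
          right
          rw [split_mem_side]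
          exact ⟨hr, haw, hrx, h1⟩
        by_cases h2 : lab x r ∈ rare G lab R x w
        · right
          rw [split_mem_side]
          exact ⟨hr, hax, hrw, h2⟩
        · left
          left
          right
          rw [split_mem_core, mem_cb]
          exact ⟨⟨hr, haw, hax⟩, h1, h2⟩
      · left
        right
        have h7' : 7 ≤ (cb G R x w).card := by
          rw [split_cb_comm]
          exact h7
        obtain ⟨-, h1⟩ := far hG hR (Ne.symm hwx) h7' hr hax hrx hrw
        rw [split_mem_side, split_mem_rare]
        refine ⟨hr, haw, hrx, ?_⟩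
        rw [split_cb_comm w x]
        exact h1
    · right
      obtain ⟨hax, h1⟩ := far hG hR hwx h7 hr haw hrw hrx
      rw [split_mem_side, split_mem_rare]
      refine ⟨hr, hax, hrw, ?_⟩
      rw [split_cb_comm x w]
      exact h1
  have h1 := Finset.card_le_card hsub
  have h2 := Finset.card_union_le (({w, x} ∪ core G lab R w x) ∪ side G lab R w x)
    (side G lab R x w)
  have h3 := Finset.card_union_le ({w, x} ∪ core G lab R w x) (side G lab R w x)
  have h4 := Finset.card_union_le ({w, x} : Finset V) (core G lab R w x)
  have h5 : ({w, x} : Finset V).card ≤ 2 := Finset.card_le_two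
  omega

end Pool.Agent.TH246.RC
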