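import Pool.Agent.TH246.RC.Defs

set_option autoImplicit false

namespace Pool.Agent.TH246.RC

theorem thetaAux {V : Type} {G : SimpleGraph V} (hG : NoWeak G) (q0 q1 q2 q3 q4 : V)
    (S01 S02 S03 S04 S12 S13 S14 S23 S24 S34 : Set V)
    (h01 : ∃ p : G.Walk q0 q1, ∀ v ∈ p.support, v ∈ S01)
    (h02 : ∃ p : G.Walk q0 q2, ∀ v ∈ p.support, v ∈ S02)
    (h03 : ∃ p : G.Walk q0 q3, ∀ v ∈ p.support, v ∈ S03)
    (h04 : ∃ p : G.Walk q0 q4, ∀ v ∈ p.support, v ∈ S04)
    (h12 : ∃ p : G.Walk q1 q2, ∀ v ∈ p.support, v ∈ S12)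
    (h13 : ∃ p : G.Walk q1 q3, ∀ v ∈ p.support, v ∈ S13)
    (h14 : ∃ p : G.Walk q1 q4, ∀ v ∈ p.support, v ∈ S14)
    (h23 : ∃ p : G.Walk q2 q3, ∀ v ∈ p.support, v ∈ S23)
    (h24 : ∃ p : G.Walk q2 q4, ∀ v ∈ p.support, v ∈ S24)
    (h34 : ∃ p : G.Walk q3 q4, ∀ v ∈ p.support, v ∈ S34)
    (d1 : Disjoint S01 S23) (d2 : Disjoint S01 S24) (d3 : Disjoint S01 S34)
    (d4 : Disjoint S02 S13) (d5 : Disjoint S02 S14) (d6 : Disjoint S02 S34)
    (d7 : Disjoint S03 S12) (d8 : Disjoint S03 S14) (d9 : Disjoint S03 S24)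
    (d10 : Disjoint S04 S12) (d11 : Disjoint S04 S13) (d12 : Disjoint S04 S23)
    (d13 : Disjoint S12 S34) (d14 : Disjoint S13 S24) (d15 : Disjoint S14 S23) : False := by
  let q : Fin 5 → V := ![q0, q1, q2, q3, q4]
  let X : Fin 5 → Fin 5 → Set V := ![![∅, S01, S02, S03, S04], ![∅, ∅, S12, S13, S14],
    ![∅, ∅, ∅, S23, S24], ![∅, ∅, ∅, ∅, S34], ![∅, ∅, ∅, ∅, ∅]]
  refine hG q X ?_ ?_
  · intro a b
    fin_cases a <;> fin_cases b <;> intro h <;> first
      | exact absurd h (by decide)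
      | exact h01
      | exact h02
      | exact h03
      | exact h04
      | exact h12
      | exact h13
      | exact h14
      | exact h23
      | exact h24
      | exact h34
  · intro a b c d
    fin_cases a <;> fin_cases b <;> first
      | (intro h; exact absurd h (by decide))
      | (fin_cases c <;> fin_cases d <;> first
          | (intro _ h; exact absurd h (by decide))
          | (intro _ _ h; exact absurd rfl h)
          | (intro _ _ _ h; exact absurd rfl h)
          | (intro _ _ _ _ h; exact absurd rfl h)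
          | (intro _ _ _ _ _ h; exact absurd rfl h)
          | (intro _ _ _ _ _ _; first
              | exact d1 | exact d2 | exact d3 | exact d4 | exact d5 | exact d6 | exact d7
              | exact d8 | exact d9 | exact d10 | exact d11 | exact d12 | exact d13 | exact d14
              | exact d15
              | exact d1.symm | exact d2.symm | exact d3.symm | exact d4.symm | exact d5.symm
              | exact d6.symm | exact d7.symm | exact d8.symm | exact d9.symm | exact d10.symm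
              | exact d11.symm | exact d12.symm | exact d13.symm | exact d14.symm
              | exact d15.symm))

theorem thetaMap {V : Type} {G : SimpleGraph V} {a b : V} {P Q : V → Prop}
    (h : ∃ p : G.Walk a b, ∀ v ∈ p.support, P v) (hPQ : ∀ v, P v → Q v) :
    ∃ p : G.Walk a b, ∀ v ∈ p.support, Q v := by
  obtain ⟨p, hp⟩ := h
  exact ⟨p, fun v hv => hPQ v (hp v hv)⟩

/-- no `K_{3,3}`-like configuration: `a, b, c` are each joined to `w` inside `W` and to `x` inside
`X`, `w` and `x` are joined through `P`, and `a, b, c` are joined pairwise through `Yab, Ybc, Yac` -/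
theorem theta {V : Type} {G : SimpleGraph V} (hG : NoWeak G) (W X P Yab Ybc Yac : Set V)
    (w x a b c : V)
    (haw : ∃ p : G.Walk a w, ∀ v ∈ p.support, v = a ∨ v ∈ W)
    (hbw : ∃ p : G.Walk b w, ∀ v ∈ p.support, v = b ∨ v ∈ W)
    (hcw : ∃ p : G.Walk c w, ∀ v ∈ p.support, v = c ∨ v ∈ W)
    (hax : ∃ p : G.Walk a x, ∀ v ∈ p.support, v = a ∨ v ∈ X)
    (hbx : ∃ p : G.Walk b x, ∀ v ∈ p.support, v = b ∨ v ∈ X)
    (hcx : ∃ p : G.Walk c x, ∀ v ∈ p.support, v = c ∨ v ∈ X)
    (hwx : ∃ p : G.Walk w x, ∀ v ∈ p.support, v ∈ W ∨ v ∈ X ∨ v ∈ P)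
    (hab : ∃ p : G.Walk a b, ∀ v ∈ p.support, v = a ∨ v = b ∨ v ∈ Yab)
    (hbc : ∃ p : G.Walk b c, ∀ v ∈ p.support, v = b ∨ v = c ∨ v ∈ Ybc)
    (hac : ∃ p : G.Walk a c, ∀ v ∈ p.support, v = a ∨ v = c ∨ v ∈ Yac)
    (nab : a ≠ b) (nbc : b ≠ c) (nac : a ≠ c)
    (dWX : Disjoint W X)
    (aW : a ∉ W) (aX : a ∉ X) (aP : a ∉ P) (bW : b ∉ W) (bX : b ∉ X) (bP : b ∉ P)
    (cW : c ∉ W) (cX : c ∉ X) (cP : c ∉ P)
    (cYab : c ∉ Yab) (aYbc : a ∉ Ybc) (bYac : b ∉ Yac)
    (d1 : Disjoint Yab (W ∪ X ∪ P)) (d2 : Disjoint Ybc (W ∪ X ∪ P))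
    (d3 : Disjoint Yac (W ∪ X ∪ P)) : False := by
  rw [Set.disjoint_left] at dWX d1 d2 d3
  have e1 : ∀ v, v ∈ Yab → v ∉ W ∧ v ∉ X ∧ v ∉ P := by
    intro v hv
    have := d1 hv
    simp only [Set.mem_union, not_or] at this
    exact ⟨this.1.1, this.1.2, this.2⟩
  have e2 : ∀ v, v ∈ Ybc → v ∉ W ∧ v ∉ X ∧ v ∉ P := by
    intro v hv
    have := d2 hv
    simp only [Set.mem_union, not_or] at this
    exact ⟨this.1.1, this.1.2, this.2⟩
  have e3 : ∀ v, v ∈ Yac → v ∉ W ∧ v ∉ X ∧ v ∉ P := by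
    intro v hv
    have := d3 hv
    simp only [Set.mem_union, not_or] at this
    exact ⟨this.1.1, this.1.2, this.2⟩
  refine thetaAux hG a b c w x {v | v = a ∨ v = b ∨ v ∈ Yab} {v | v = a ∨ v = c ∨ v ∈ Yac}
    {v | v = a ∨ v ∈ W} {v | v = a ∨ v ∈ X} {v | v = b ∨ v = c ∨ v ∈ Ybc}
    {v | v = b ∨ v ∈ W} {v | v = b ∨ v ∈ X} {v | v = c ∨ v ∈ W} {v | v = c ∨ v ∈ X}
    {v | v ∈ W ∨ v ∈ X ∨ v ∈ P} hab hac haw hax hbc hbw hbx hcw hcx hwx
    ?_ ?_ ?_ ?_ ?_ ?_ ?_ ?_ ?_ ?_ ?_ ?_ ?_ ?_ ?_ <;> rw [Set.disjoint_left] <;> intro v h h'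
  · rcases h with rfl | rfl | h <;> rcases h' with rfl | h'
    · exact nac rfl
    · exact aW h'
    · exact nbc rfl
    · exact bW h'
    · exact cYab h
    · exact (e1 v h).1 h'
  · rcases h with rfl | rfl | h <;> rcases h' with rfl | h'
    · exact nac rfl
    · exact aX h'
    · exact nbc rfl
    · exact bX h'
    · exact cYab h
    · exact (e1 v h).2.1 h'
  · rcases h with rfl | rfl | h <;> rcases h' with h' | h' | h'
    · exact aW h'
    · exact aX h'
    · exact aP h'
    · exact bW h'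
    · exact bX h'
    · exact bP h'
    · exact (e1 v h).1 h'
    · exact (e1 v h).2.1 h'
    · exact (e1 v h).2.2 h'
  · rcases h with rfl | rfl | h <;> rcases h' with rfl | h'
    · exact nab rfl
    · exact aW h'
    · exact nbc rfl
    · exact cW h'
    · exact bYac h
    · exact (e3 v h).1 h'
  · rcases h with rfl | rfl | h <;> rcases h' with rfl | h'
    · exact nab rfl
    · exact aX h'
    · exact nbc rfl
    · exact cX h'
    · exact bYac h
    · exact (e3 v h).2.1 h'
  · rcases h with rfl | rfl | h <;> rcases h' with h' | h' | h'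
    · exact aW h'
    · exact aX h'
    · exact aP h'
    · exact cW h'
    · exact cX h'
    · exact cP h'
    · exact (e3 v h).1 h'
    · exact (e3 v h).2.1 h'
    · exact (e3 v h).2.2 h'
  · rcases h with rfl | h <;> rcases h' with rfl | rfl | h'
    · exact nab rfl
    · exact nac rfl
    · exact aYbc h'
    · exact bW h
    · exact cW h
    · exact (e2 v h').1 h
  · rcases h with rfl | h <;> rcases h' with rfl | h'
    · exact nab rfl
    · exact aX h'
    · exact bW h
    · exact dWX h h'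
  · rcases h with rfl | h <;> rcases h' with rfl | h'
    · exact nac rfl
    · exact aX h'
    · exact cW h
    · exact dWX h h'
  · rcases h with rfl | h <;> rcases h' with rfl | rfl | h'
    · exact nab rfl
    · exact nac rfl
    · exact aYbc h'
    · exact bX h
    · exact cX h
    · exact (e2 v h').2.1 h
  · rcases h with rfl | h <;> rcases h' with rfl | h'
    · exact nab rfl
    · exact aW h'
    · exact bX h
    · exact dWX h' h
  · rcases h with rfl | h <;> rcases h' with rfl | h'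
    · exact nac rfl
    · exact aW h'
    · exact cX h
    · exact dWX h' h
  · rcases h with rfl | rfl | h <;> rcases h' with h' | h' | h'
    · exact bW h'
    · exact bX h'
    · exact bP h'
    · exact cW h'
    · exact cX h'
    · exact cP h'
    · exact (e2 v h).1 h'
    · exact (e2 v h).2.1 h'
    · exact (e2 v h).2.2 h'
  · rcases h with rfl | h <;> rcases h' with rfl | h'
    · exact nbc rfl
    · exact bX h'
    · exact cW h
    · exact dWX h h'
  · rcases h with rfl | h <;> rcases h' with rfl | h'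
    · exact nbc rfl
    · exact bW h'
    · exact cX h
    · exact dWX h' h

end Pool.Agent.TH246.RC
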