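import Pool.Agent.TH246.RC.Split

set_option autoImplicit false

namespace Pool.Agent.TH246.RC

open Finset

variable {V : Type} [Fintype V] {G : SimpleGraph V} {p : ℕ} {lab : V → V → Fin p} {R : Finset V}

omit [Fintype V] in
theorem triangle_mem_rare {w x : V} {α : Fin p} : α ∈ rare G lab R w x ↔
    ((cb G R w x).filter (fun r => lab w r = α)).card ≤ 6 := by
  classical
  simp [rare]

omit [Fintype V] in
theorem triangle_mem_big {w x : V} {α : Fin p} : α ∈ big G lab R w x ↔
    α ∈ rare G lab R w x ∧ 200 ≤ (cl G lab R w α).card := by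
  classical
  simp [big]

/-- the elements of `R` in large rare classes at `w`, far from `x` -/
noncomputable def triangleA (G : SimpleGraph V) {p : ℕ} (lab : V → V → Fin p) (R : Finset V)
    (w x y : V) : Finset V := by
  classical exact R.filter (fun r => G.Adj w r ∧ ¬ G.Adj x r ∧ r ≠ x ∧ r ≠ y ∧
    lab w r ∈ big G lab R w x)

omit [Fintype V] in
theorem triangle_mem_A {w x y r : V} : r ∈ triangleA G lab R w x y ↔
    r ∈ R ∧ G.Adj w r ∧ ¬ G.Adj x r ∧ r ≠ x ∧ r ≠ y ∧ lab w r ∈ big G lab R w x := by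
  classical
  simp [triangleA]

theorem triangle_farset {w x : V} {α : Fin p} (hα : α ∈ big G lab R w x) (y z : V) :
    ∃ A : Finset V, 191 ≤ A.card ∧ ∀ r ∈ A, r ∈ cl G lab R w α ∧ ¬ G.Adj x r ∧ r ≠ x ∧ r ≠ y ∧
      r ≠ z := by
  classical
  obtain ⟨h1, h2⟩ := triangle_mem_big.1 hα
  rw [triangle_mem_rare] at h1
  refine ⟨((((cl G lab R w α).filter (fun r => ¬ G.Adj x r)).erase x).erase y).erase z, ?_, ?_⟩
  · have h3 : ((cl G lab R w α).filter (fun r => G.Adj x r)).card ≤ 6 := by
      refine (card_le_card ?_).trans h1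
      intro r hr
      obtain ⟨hr1, hr2⟩ := mem_filter.1 hr
      obtain ⟨hr3, hr4, hr5⟩ := mem_cl.1 hr1
      exact mem_filter.2 ⟨mem_cb.2 ⟨hr3, hr4, hr2⟩, hr5⟩
    have h4 := card_filter_add_card_filter_not (s := cl G lab R w α) (fun r => G.Adj x r)
    have h5 := pred_card_le_card_erase (a := x)
      (s := (cl G lab R w α).filter (fun r => ¬ G.Adj x r))
    have h6 := pred_card_le_card_erase (a := y)
      (s := ((cl G lab R w α).filter (fun r => ¬ G.Adj x r)).erase x)
    have h7 := pred_card_le_card_erase (a := z)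
      (s := (((cl G lab R w α).filter (fun r => ¬ G.Adj x r)).erase x).erase y)
    omega
  · intro r hr
    obtain ⟨n1, hr⟩ := mem_erase.1 hr
    obtain ⟨n2, hr⟩ := mem_erase.1 hr
    obtain ⟨n3, hr⟩ := mem_erase.1 hr
    obtain ⟨hr1, hr2⟩ := mem_filter.1 hr
    exact ⟨hr1, hr2, n3, n2, n1⟩

theorem triangle_ne {w x : V} {α : Fin p} (hα : α ∈ big G lab R w x) {y : V}
    (hy : ∀ s ∈ cl G lab R w α, s = y ∨ G.Adj y s) : y ≠ x := by
  rintro rfl
  obtain ⟨A, hA, hA2⟩ := triangle_farset hα y y
  obtain ⟨r, hr⟩ : A.Nonempty := card_pos.1 (by omega)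
  obtain ⟨h1, h2, h3, h4, h5⟩ := hA2 r hr
  rcases hy r h1 with h | h
  · exact h3 h
  · exact h2 h

omit [Fintype V] in
theorem triangle_cb {w : V} {α : Fin p} (hα : 200 ≤ (cl G lab R w α).card) {y : V}
    (hy : ∀ s ∈ cl G lab R w α, s = y ∨ G.Adj y s) : 199 ≤ (cb G R w y).card := by
  classical
  have hsub : (cl G lab R w α).erase y ⊆ cb G R w y := by
    intro s hs
    obtain ⟨h1, h2⟩ := mem_erase.1 hs
    obtain ⟨h3, h4, h5⟩ := mem_cl.1 h2
    exact mem_cb.2 ⟨h3, h4, (hy s h2).resolve_left h1⟩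
  have h1 := card_le_card hsub
  have h2 := pred_card_le_card_erase (a := y) (s := cl G lab R w α)
  omega

theorem triangle_eq (hG : NoWeak G) (hR : RelCl G lab R) {w x : V}
    {α β : Fin p} (hα : α ∈ big G lab R w x) (hβ : β ∈ big G lab R x w) {y z : V}
    (hyw : y ≠ w) (hy : ∀ s ∈ cl G lab R w α, s = y ∨ G.Adj y s)
    (hzx : z ≠ x) (hz : ∀ s ∈ cl G lab R x β, s = z ∨ G.Adj z s) : y = z := by
  classical
  by_contra hyz
  have hzw : z ≠ w := triangle_ne hβ hz
  have hcb : 7 ≤ (cb G R x z).card := by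
    have := triangle_cb (triangle_mem_big.1 hβ).2 hz
    omega
  obtain ⟨A, hA, hA2⟩ := triangle_farset hα y z
  have h6 := six hG (w := w) (x := y) (s := z) (Ne.symm hyw) hzw (Ne.symm hyz) A
    (by
      intro a ha
      obtain ⟨h1, h2, h3, h4, h5⟩ := hA2 a ha
      exact ⟨(mem_cl.1 h1).2.1, (hy a h1).resolve_left h4⟩)
    (by
      intro hzA
      exact (hA2 z hzA).2.2.2.2 rfl)
    (by
      intro a ha
      obtain ⟨h1, h2, h3, h4, h5⟩ := hA2 a ha
      exact Or.inl (far hG hR (Ne.symm hzx) hcb (mem_cl.1 h1).1 h2 h3 h5).1)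
  omega

/-- the third hub -/
theorem triangle_hub (hG : NoWeak G) (hR : RelCl G lab R) {w x : V}
    (hA : (big G lab R w x).Nonempty) (hB : (big G lab R x w).Nonempty) :
    ∃ y, y ≠ w ∧ y ≠ x ∧
      (∀ α ∈ big G lab R w x, ∀ s ∈ cl G lab R w α, s = y ∨ G.Adj y s) ∧
      (∀ β ∈ big G lab R x w, ∀ s ∈ cl G lab R x β, s = y ∨ G.Adj y s) := by
  have h1 : ∀ α ∈ big G lab R w x, ∃ y, y ≠ w ∧ ∀ s ∈ cl G lab R w α, s = y ∨ G.Adj y s := by
    intro α hα
    obtain ⟨y, hy1, hy2, _⟩ := outer hG hR (triangle_mem_big.1 hα).2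
    exact ⟨y, hy1, hy2⟩
  have h2 : ∀ β ∈ big G lab R x w, ∃ z, z ≠ x ∧ ∀ s ∈ cl G lab R x β, s = z ∨ G.Adj z s := by
    intro β hβ
    obtain ⟨y, hy1, hy2, _⟩ := outer hG hR (triangle_mem_big.1 hβ).2
    exact ⟨y, hy1, hy2⟩
  obtain ⟨α0, hα0⟩ := hA
  obtain ⟨β0, hβ0⟩ := hB
  obtain ⟨y, hyw, hy⟩ := h1 α0 hα0
  have hyx : y ≠ x := triangle_ne hα0 hy
  refine ⟨y, hyw, hyx, ?_, ?_⟩
  · intro α hα
    obtain ⟨y', hyw', hy'⟩ := h1 α hα
    obtain ⟨z, hzx, hz⟩ := h2 β0 hβ0
    have e1 := triangle_eq hG hR hα0 hβ0 hyw hy hzx hz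
    have e2 := triangle_eq hG hR hα hβ0 hyw' hy' hzx hz
    rw [e1, ← e2]
    exact hy'
  · intro β hβ
    obtain ⟨z, hzx, hz⟩ := h2 β hβ
    have e1 := triangle_eq hG hR hα0 hβ hyw hy hzx hz
    rw [e1]
    exact hz

theorem triangle_three (hG : NoWeak G) (hR : RelCl G lab R) {w x y : V}
    (hyw : y ≠ w) (hy : ∀ α ∈ big G lab R w x, ∀ s ∈ cl G lab R w α, s = y ∨ G.Adj y s)
    (γ : Fin p) :
    ((triangleA G lab R w x y).filter (fun r => lab y r = γ)).card
      ≤ 3 * (big G lab R w x).card := by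
  classical
  by_cases hne : (big G lab R w x).Nonempty
  · obtain ⟨α0, hα0⟩ := hne
    have hcn : 6 ≤ (cn G w y).card := by
      have h1 := triangle_cb (triangle_mem_big.1 hα0).2 (hy α0 hα0)
      have h2 : cb G R w y ⊆ cn G w y := by
        intro r hr
        obtain ⟨_, h3, h4⟩ := mem_cb.1 hr
        exact mem_cn.2 ⟨h3, h4⟩
      have := card_le_card h2
      omega
    refine card_le_mul_card_image_of_maps_to (f := fun r => lab w r) ?_ 3 ?_
    · intro r hr
      exact (triangle_mem_A.1 (mem_filter.1 hr).1).2.2.2.2.2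
    · intro α hα
      apply three hG hR (Ne.symm hyw) hcn
      · intro s hs
        obtain ⟨hs1, hs2⟩ := mem_filter.1 hs
        obtain ⟨hs3, hs4⟩ := mem_filter.1 hs1
        obtain ⟨h1, h2, h3, h4, h5, h6⟩ := triangle_mem_A.1 hs3
        exact ⟨h1, h2, (hy _ h6 s (mem_cl.2 ⟨h1, h2, rfl⟩)).resolve_left h5⟩
      · intro s hs t ht
        rw [(mem_filter.1 hs).2, (mem_filter.1 ht).2]
      · intro s hs t ht
        rw [(mem_filter.1 (mem_filter.1 hs).1).2, (mem_filter.1 (mem_filter.1 ht).1).2]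
  · have h0 : big G lab R w x = ∅ := not_nonempty_iff_eq_empty.1 hne
    rw [h0, card_empty, mul_zero, Nat.le_zero, card_eq_zero, filter_eq_empty_iff]
    intro r hr
    have := (triangle_mem_A.1 hr).2.2.2.2.2
    rw [h0] at this
    simp at this

theorem triangle_six (hG : NoWeak G) (hR : RelCl G lab R) {w x y : V}
    (hyw : y ≠ w) (hy : ∀ α ∈ big G lab R w x, ∀ s ∈ cl G lab R w α, s = y ∨ G.Adj y s)
    {b : V} (hb : b ∈ R) (hbw : ¬ G.Adj w b) (nbw : b ≠ w) (nby : b ≠ y) :
    ((triangleA G lab R w x y).filter (fun r => lab y r = lab y b)).card ≤ 6 := by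
  classical
  apply six hG (w := w) (x := y) (s := b) (Ne.symm hyw) nbw nby
  · intro a ha
    obtain ⟨h1, h2, h3, h4, h5, h6⟩ := triangle_mem_A.1 (mem_filter.1 ha).1
    exact ⟨h2, (hy _ h6 a (mem_cl.2 ⟨h1, h2, rfl⟩)).resolve_left h5⟩
  · intro h
    exact hbw (triangle_mem_A.1 (mem_filter.1 h).1).2.1
  · intro a ha
    obtain ⟨h1, h2, h3, h4, h5, h6⟩ := triangle_mem_A.1 (mem_filter.1 ha).1
    have hl := (mem_filter.1 ha).2
    have hba : b ≠ a := by
      rintro rfl
      exact hbw h2
    rcases hR b hb a h1 hba with h | ⟨v, hv1, hv2, hv3⟩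
    · exact Or.inl h
    · refine Or.inr ⟨v, ?_, hv1, hv2⟩
      intro hv
      rcases hv with rfl | hv
      · exact hbw hv1
      · have hv' : v = y := hv
        subst hv'
        exact hv3 hl.symm

theorem triangle_side (w x y : V) :
    (side G lab R w x).card ≤ (triangleA G lab R w x y).card + 1
      + 6 * (big G lab R w x).card
      + 199 * ((rare G lab R w x).card - (big G lab R w x).card) := by
  classical
  set E := (cb G R w x).filter (fun r => lab w r ∈ big G lab R w x) with hE
  set F := (nb G R w).filter (fun r => lab w r ∈ rare G lab R w x \ big G lab R w x) with hF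
  have hEc : E.card ≤ 6 * (big G lab R w x).card := by
    refine card_le_mul_card_image_of_maps_to (f := fun r => lab w r) ?_ 6 ?_
    · intro r hr
      exact (mem_filter.1 hr).2
    · intro α hα
      refine (card_le_card ?_).trans (triangle_mem_rare.1 (triangle_mem_big.1 hα).1)
      intro r hr
      obtain ⟨h1, h2⟩ := mem_filter.1 hr
      exact mem_filter.2 ⟨(mem_filter.1 h1).1, h2⟩
  have hsubset : big G lab R w x ⊆ rare G lab R w x := fun α hα => (triangle_mem_big.1 hα).1
  have hFc : F.card ≤ 199 * ((rare G lab R w x).card - (big G lab R w x).card) := by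
    rw [← card_sdiff_of_subset hsubset]
    refine card_le_mul_card_image_of_maps_to (f := fun r => lab w r) ?_ 199 ?_
    · intro r hr
      exact (mem_filter.1 hr).2
    · intro α hα
      obtain ⟨h1, h2⟩ := mem_sdiff.1 hα
      have h3 : ¬ 200 ≤ (cl G lab R w α).card := fun h => h2 (triangle_mem_big.2 ⟨h1, h⟩)
      have h4 : (F.filter (fun r => lab w r = α)) ⊆ cl G lab R w α := by
        intro r hr
        obtain ⟨h5, h6⟩ := mem_filter.1 hr
        obtain ⟨h7, h8⟩ := mem_nb.1 (mem_filter.1 h5).1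
        exact mem_cl.2 ⟨h7, h8, h6⟩
      have := card_le_card h4
      omega
  have hsub : side G lab R w x ⊆ ((triangleA G lab R w x y ∪ {y}) ∪ E) ∪ F := by
    intro r hr
    simp only [side, mem_filter] at hr
    obtain ⟨h1, h2, h3, h4⟩ := hr
    by_cases hb : lab w r ∈ big G lab R w x
    · apply mem_union_left
      by_cases hx : G.Adj x r
      · exact mem_union_right _ (mem_filter.2 ⟨mem_cb.2 ⟨h1, h2, hx⟩, hb⟩)
      · apply mem_union_left
        by_cases hy : r = y
        · exact mem_union_right _ (by simp [hy])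
        · exact mem_union_left _ (triangle_mem_A.2 ⟨h1, h2, hx, h3, hy, hb⟩)
    · exact mem_union_right _ (mem_filter.2 ⟨mem_nb.2 ⟨h1, h2⟩, mem_sdiff.2 ⟨h4, hb⟩⟩)
  have c1 := (card_le_card hsub).trans (card_union_le _ _)
  have c2 := card_union_le (triangleA G lab R w x y ∪ {y}) E
  have c3 := card_union_le (triangleA G lab R w x y) {y}
  rw [card_singleton] at c3
  omega

/-- two vertices `w, x` with many common neighbours in `R` and large classes on both sides: there
is a third hub, and the labels at it split -/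
theorem triangle (hG : NoWeak G) (hR : RelCl G lab R) {w x : V} (hwx : w ≠ x)
    (h7 : 7 ≤ (cb G R w x).card) (hA : (big G lab R w x).Nonempty)
    (hB : (big G lab R x w).Nonempty) :
    ∃ uA uB mu : ℕ, uA + uB + mu = p ∧
      (side G lab R w x).card ≤ 3 * (big G lab R w x).card * uA
        + min 6 (3 * (big G lab R w x).card) * mu + 1 + 6 * (big G lab R w x).card
        + 199 * ((rare G lab R w x).card - (big G lab R w x).card) ∧
      (side G lab R x w).card ≤ 3 * (big G lab R x w).card * uB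
        + min 6 (3 * (big G lab R x w).card) * mu + 1 + 6 * (big G lab R x w).card
        + 199 * ((rare G lab R x w).card - (big G lab R x w).card) := by
  classical
  obtain ⟨y, hyw, hyx, hyA, hyB⟩ := triangle_hub hG hR hA hB
  set A1 := triangleA G lab R w x y with hA1
  set B1 := triangleA G lab R x w y with hB1
  set nA : Fin p → ℕ := fun γ => (A1.filter (fun r => lab y r = γ)).card with hnA
  set nB : Fin p → ℕ := fun γ => (B1.filter (fun r => lab y r = γ)).card with hnB
  have a1 : ∀ γ, nA γ ≤ 3 * (big G lab R w x).card := triangle_three hG hR hyw hyA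
  have b1 : ∀ γ, nB γ ≤ 3 * (big G lab R x w).card := triangle_three hG hR hyx hyB
  have a2 : ∀ γ, nB γ ≠ 0 → nA γ ≤ 6 := by
    intro γ hγ
    obtain ⟨b, hb⟩ := card_pos.1 (Nat.pos_of_ne_zero hγ)
    obtain ⟨hb1, hb2⟩ := mem_filter.1 hb
    obtain ⟨h1, h2, h3, h4, h5, h6⟩ := triangle_mem_A.1 hb1
    have := triangle_six hG hR hyw hyA h1 h3 h4 h5
    rwa [hb2] at this
  have b2 : ∀ γ, nA γ ≠ 0 → nB γ ≤ 6 := by
    intro γ hγ
    obtain ⟨b, hb⟩ := card_pos.1 (Nat.pos_of_ne_zero hγ)
    obtain ⟨hb1, hb2⟩ := mem_filter.1 hb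
    obtain ⟨h1, h2, h3, h4, h5, h6⟩ := triangle_mem_A.1 hb1
    have := triangle_six hG hR hyx hyB h1 h3 h4 h5
    rwa [hb2] at this
  have sA : A1.card = ∑ γ : Fin p, nA γ :=
    card_eq_sum_card_fiberwise (fun s _ => mem_univ _)
  have sB : B1.card = ∑ γ : Fin p, nB γ :=
    card_eq_sum_card_fiberwise (fun s _ => mem_univ _)
  refine ⟨(univ.filter (fun γ => nB γ = 0)).card,
    (univ.filter (fun γ => nB γ ≠ 0 ∧ nA γ = 0)).card,
    (univ.filter (fun γ => nB γ ≠ 0 ∧ nA γ ≠ 0)).card, ?_, ?_, ?_⟩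
  · have h1 := card_filter_add_card_filter_not (s := (univ : Finset (Fin p)))
      (fun γ => nB γ = 0)
    have h2 := card_filter_add_card_filter_not
      (s := (univ : Finset (Fin p)).filter (fun γ => ¬ nB γ = 0)) (fun γ => nA γ = 0)
    rw [filter_filter, filter_filter] at h2
    rw [card_univ, Fintype.card_fin] at h1
    simp only [ne_eq]
    omega
  · have hb : A1.card ≤ 3 * (big G lab R w x).card * (univ.filter (fun γ => nB γ = 0)).card
        + min 6 (3 * (big G lab R w x).card)
          * (univ.filter (fun γ => nB γ ≠ 0 ∧ nA γ ≠ 0)).card := by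
      rw [sA, mul_comm (3 * (big G lab R w x).card),
        mul_comm (min 6 (3 * (big G lab R w x).card)), card_filter, card_filter,
        Finset.sum_mul, Finset.sum_mul, ← Finset.sum_add_distrib]
      apply sum_le_sum
      intro γ _
      by_cases h1 : nB γ = 0
      · simp only [h1, if_true, ne_eq, not_true_eq_false, false_and, if_false]
        have := a1 γ
        omega
      · by_cases h2 : nA γ = 0
        · simp [h2]
        · simp only [h1, h2, if_false, ne_eq, not_false_eq_true, and_self, if_true]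
          have h3 := a1 γ
          have h4 := a2 γ h1
          have h5 := le_min h4 h3
          omega
    have := triangle_side (G := G) (lab := lab) (R := R) w x y
    rw [← hA1] at this
    omega
  · have hb : B1.card ≤ 3 * (big G lab R x w).card
          * (univ.filter (fun γ => nB γ ≠ 0 ∧ nA γ = 0)).card
        + min 6 (3 * (big G lab R x w).card)
          * (univ.filter (fun γ => nB γ ≠ 0 ∧ nA γ ≠ 0)).card := by
      rw [sB, mul_comm (3 * (big G lab R x w).card),
        mul_comm (min 6 (3 * (big G lab R x w).card)), card_filter, card_filter,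
        Finset.sum_mul, Finset.sum_mul, ← Finset.sum_add_distrib]
      apply sum_le_sum
      intro γ _
      by_cases h1 : nB γ = 0
      · simp [h1]
      · by_cases h2 : nA γ = 0
        · simp only [h1, h2, if_false, ne_eq, not_false_eq_true, and_self, if_true,
            not_true_eq_false, and_false]
          have := b1 γ
          omega
        · simp only [h1, h2, if_false, ne_eq, not_false_eq_true, and_self, if_true, and_false]
          have h3 := b1 γ
          have h4 := b2 γ h2
          have h5 := le_min h4 h3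
          omega
    have := triangle_side (G := G) (lab := lab) (R := R) x w y
    rw [← hB1] at this
    omega

end Pool.Agent.TH246.RC
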