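import Pool.Agent.TH246.RC.Arith
import Pool.Agent.TH246.RC.Triangle

set_option autoImplicit false

namespace Pool.Agent.TH246.RC

open Finset

variable {V : Type} [Fintype V] {G : SimpleGraph V} {p : ℕ} {lab : V → V → Fin p} {R : Finset V}

omit [Fintype V] in
theorem twoHubs_rare (w x : V) : (rare G lab R w x).card ≤ p := by
  classical
  calc (rare G lab R w x).card ≤ (univ : Finset (Fin p)).card := Finset.card_le_card (subset_univ _)
    _ = p := by simp

omit [Fintype V] in
theorem twoHubs_big (w x : V) : (big G lab R w x).card ≤ (rare G lab R w x).card := by
  classical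
  unfold big
  exact Finset.card_le_card (Finset.filter_subset _ _)

/-- two vertices with many common neighbours in `R`: the bound holds -/
theorem twoHubs (hG : NoWeak G) (hR : RelCl G lab R) (hp : 20000 ≤ p) {w x : V} (hwx : w ≠ x)
    (h : p ^ 2 ≤ 60 * (cb G R w x).card) : R.card ≤ 3 * p ^ 2 + p + 1 := by
  classical
  have h7 : 7 ≤ (cb G R w x).card := by
    have : 20000 * 20000 ≤ p ^ 2 := by nlinarith
    omega
  have hi := twoHubs_rare (G := G) (lab := lab) (R := R) w x
  have hj := twoHubs_rare (G := G) (lab := lab) (R := R) x w
  have bi := twoHubs_big (G := G) (lab := lab) (R := R) w x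
  have bj := twoHubs_big (G := G) (lab := lab) (R := R) x w
  have hQ := card_core (lab := lab) hG hR hwx h7
  have hK := card_cb (G := G) (lab := lab) (R := R) w x
  have ha := arith1 p (rare G lab R w x).card (rare G lab R x w).card (cb G R w x).card
    (core G lab R w x).card hp hi hj h hK hQ
  have hN := card_le_split (lab := lab) hG hR hwx h7
  have hA := card_side_le (lab := lab) hG hR (by omega) w x
  have hB := card_side_le (lab := lab) hG hR (by omega) x w
  rcases (big G lab R x w).eq_empty_or_nonempty with hx | hx
  · -- no large class at `x`
    refine arith0 p (rare G lab R w x).card (rare G lab R x w).card R.card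
      (core G lab R w x).card (side G lab R w x).card (side G lab R x w).card hp ha.1 hN hj hQ
      ?_ ?_
    · refine hA.trans ?_
      obtain ⟨k, hk⟩ := Nat.exists_eq_add_of_le bi
      rw [hk, Nat.add_sub_cancel_left]
      have : 199 * k ≤ k * (3 * p + 1) := by nlinarith
      nlinarith
    · refine hB.trans ?_
      rw [hx]
      simp
  · rcases (big G lab R w x).eq_empty_or_nonempty with hw | hw
    · refine arith0 p (rare G lab R x w).card (rare G lab R w x).card R.card
        (core G lab R w x).card (side G lab R x w).card (side G lab R w x).card hp ha.2
        (by omega) hi ?_ ?_ ?_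
      · calc (core G lab R w x).card ≤ 3 * (p - (rare G lab R w x).card)
              * (p - (rare G lab R x w).card) := hQ
          _ = 3 * (p - (rare G lab R x w).card) * (p - (rare G lab R w x).card) := by ring
      · refine hB.trans ?_
        obtain ⟨k, hk⟩ := Nat.exists_eq_add_of_le bj
        rw [hk, Nat.add_sub_cancel_left]
        have : 199 * k ≤ k * (3 * p + 1) := by nlinarith
        nlinarith
      · refine hA.trans ?_
        rw [hw]
        simp
    · obtain ⟨uA, uB, mu, hu, hA2, hB2⟩ := triangle hG hR hwx h7 hw hx
      have ei : (big G lab R w x).card + ((rare G lab R w x).card - (big G lab R w x).card)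
          = (rare G lab R w x).card := by omega
      have ej : (big G lab R x w).card + ((rare G lab R x w).card - (big G lab R x w).card)
          = (rare G lab R x w).card := by omega
      refine arith p (big G lab R w x).card
        ((rare G lab R w x).card - (big G lab R w x).card) (big G lab R x w).card
        ((rare G lab R x w).card - (big G lab R x w).card) uA uB mu R.card
        (core G lab R w x).card (side G lab R w x).card (side G lab R x w).card hp
        ?_ ?_ (Finset.card_pos.2 hw) (Finset.card_pos.2 hx) hu hN ?_ hA hA2 hB hB2
      · rw [ei]
        exact ha.1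
      · rw [ej]
        exact ha.2
      · rw [ei, ej]
        exact hQ

end Pool.Agent.TH246.RC
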